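import Mathlib

/-!
Definitions: complex homogeneous spaces, principal bundles, holomorphic Cartan geometries and
Kähler manifolds.  All complex manifolds are finite dimensional, modelled on a complex normed space
`E` with the model `𝓘(ℂ, E)`, and of class `ω`.
-/

open scoped Manifold ContDiff Topology

noncomputable section

namespace Pool.Agent.Lib.MP_69200a_ag

section Groups

variable {EG : Type} [NormedAddCommGroup EG] [NormedSpace ℂ EG]
  {G : Type} [TopologicalSpace G] [ChartedSpace EG G] [Group G]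
  {EH : Type} [NormedAddCommGroup EH] [NormedSpace ℂ EH]
  {H : Type} [TopologicalSpace H] [ChartedSpace EH H] [Group H]
  {EX : Type} [NormedAddCommGroup EX] [NormedSpace ℂ EX]
  {X : Type} [TopologicalSpace X] [ChartedSpace EX X]

/-- The homomorphism `ι : H → G` of complex Lie groups identifies `H` with a closed complex Lie
subgroup of `G`: it is holomorphic, a closed embedding and an immersion. -/
structure IsClosedComplexSubgroup (ι : H →* G) : Prop where
  holomorphic : ContMDiff 𝓘(ℂ, EH) 𝓘(ℂ, EG) ω ι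
  isClosedEmbedding : Topology.IsClosedEmbedding ι
  immersion : Function.Injective (mfderiv 𝓘(ℂ, EH) 𝓘(ℂ, EG) ι 1)

/-- The complex manifold `X` with base point `x₀` is the complex homogeneous space `G/H`: the group
`G` acts holomorphically and transitively on `X`, the stabiliser of `x₀` is (the image of) `H`, and
the orbit map `G → X` of `x₀` is a submersion at the identity. -/
structure IsHomogeneousSpace (ι : H →* G) [MulAction G X] (x₀ : X) : Prop where
  holomorphic : ContMDiff (𝓘(ℂ, EG).prod 𝓘(ℂ, EX)) 𝓘(ℂ, EX) ω (fun p : G × X ↦ p.1 • p.2)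
  transitive : ∀ x : X, ∃ g : G, g • x₀ = x
  stabilizer : ∀ g : G, g • x₀ = x₀ ↔ ∃ h : H, ι h = g
  submersion : Function.Surjective (mfderiv 𝓘(ℂ, EG) 𝓘(ℂ, EX) (fun g : G ↦ g • x₀) 1)

variable (EG) in
/-- The adjoint action `Ad(g)` on the Lie algebra `𝔤 = T_1 G`: the derivative at `1` of the
conjugation `x ↦ g x g⁻¹`. -/
def Ad (g : G) : GroupLieAlgebra 𝓘(ℂ, EG) G → GroupLieAlgebra 𝓘(ℂ, EG) G :=
  fun v ↦ mfderiv 𝓘(ℂ, EG) 𝓘(ℂ, EG) (fun x : G ↦ g * x * g⁻¹) 1 v

end Groups

section Product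

variable (EX : Type) [NormedAddCommGroup EX] [NormedSpace ℂ EX]
  (X : Type) [TopologicalSpace X] [ChartedSpace EX X]

/-- `X` is biholomorphic to a product `A × B` of complex manifolds with `A` compact, connected and
not a point (for instance `A = ℙ¹`). -/
def HasCompactFactor : Prop :=
  ∃ (EA : Type) (_ : NormedAddCommGroup EA) (_ : NormedSpace ℂ EA)
    (EB : Type) (_ : NormedAddCommGroup EB) (_ : NormedSpace ℂ EB)
    (A : Type) (_ : TopologicalSpace A) (_ : ChartedSpace EA A) (_ : IsManifold 𝓘(ℂ, EA) ω A)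
    (B : Type) (_ : TopologicalSpace B) (_ : ChartedSpace EB B) (_ : IsManifold 𝓘(ℂ, EB) ω B),
    CompactSpace A ∧ ConnectedSpace A ∧ Nontrivial A ∧ Nonempty B ∧
      Nonempty (Diffeomorph (𝓘(ℂ, EA).prod 𝓘(ℂ, EB)) 𝓘(ℂ, EX) (A × B) X ω)

end Product

section Bundles

variable {EM : Type} [NormedAddCommGroup EM] [NormedSpace ℂ EM]
  {M : Type} [TopologicalSpace M] [ChartedSpace EM M]
  {EP : Type} [NormedAddCommGroup EP] [NormedSpace ℂ EP]
  {P : Type} [TopologicalSpace P] [ChartedSpace EP P]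
  {EH : Type} [NormedAddCommGroup EH] [NormedSpace ℂ EH]
  {H : Type} [TopologicalSpace H] [ChartedSpace EH H] [Group H]

/-- The bundle `π : P → M` with right action `act : P × H → P` is trivial over the open set `U`:
there is an `H`-equivariant biholomorphism `Φ : U × H → π⁻¹(U)` over `U`, with inverse `Ψ`. -/
def IsTrivialOver (π : P → M) (act : P → H → P) (U : Set M) : Prop :=
  ∃ (Φ : M × H → P) (Ψ : P → M × H),
    ContMDiffOn (𝓘(ℂ, EM).prod 𝓘(ℂ, EH)) 𝓘(ℂ, EP) ω Φ (U ×ˢ Set.univ) ∧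
    ContMDiffOn 𝓘(ℂ, EP) (𝓘(ℂ, EM).prod 𝓘(ℂ, EH)) ω Ψ (π ⁻¹' U) ∧
    (∀ y ∈ U, ∀ h : H, π (Φ (y, h)) = y ∧ Ψ (Φ (y, h)) = (y, h)) ∧
    (∀ y ∈ U, ∀ h h' : H, Φ (y, h * h') = act (Φ (y, h)) h') ∧
    ∀ p ∈ π ⁻¹' U, (Ψ p).1 = π p ∧ Φ (Ψ p) = p

/-- A holomorphic principal right `H`-bundle `π : P → M` with right action `act`. -/
structure IsPrincipalBundle (π : P → M) (act : P → H → P) : Prop where
  holomorphic_proj : ContMDiff 𝓘(ℂ, EP) 𝓘(ℂ, EM) ω π
  holomorphic_act : ContMDiff (𝓘(ℂ, EP).prod 𝓘(ℂ, EH)) 𝓘(ℂ, EP) ω (fun q : P × H ↦ act q.1 q.2)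
  act_one : ∀ p, act p 1 = p
  act_mul : ∀ p h h', act p (h * h') = act (act p h) h'
  proj_act : ∀ p h, π (act p h) = π p
  locally_trivial : ∀ x : M, ∃ U : Set M, IsOpen U ∧ x ∈ U ∧
    IsTrivialOver (EM := EM) (EP := EP) (EH := EH) π act U

variable {EG : Type} [NormedAddCommGroup EG] [NormedSpace ℂ EG]
  {G : Type} [TopologicalSpace G] [ChartedSpace EG G] [Group G]

/-- A Cartan connection on a principal `H`-bundle with right action `act : P × H → P`: a holomorphic
`𝔤`-valued 1-form `θ` on `P` such that each `θ_p : T_p P → 𝔤` is a linear isomorphism,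
`r_h^* θ = Ad(h)⁻¹ θ`, and `θ` maps the fundamental vector field of `A ∈ 𝔥` to `A`. -/
structure IsCartanConnection [IsManifold 𝓘(ℂ, EP) ω P] (ι : H →* G) (act : P → H → P)
    (θ : ∀ p : P, TangentSpace 𝓘(ℂ, EP) p →L[ℂ] GroupLieAlgebra 𝓘(ℂ, EG) G) : Prop where
  holomorphic : ContMDiff (M' := EG) 𝓘(ℂ, EP).tangent 𝓘(ℂ, EG) ω
    (fun v : TangentBundle 𝓘(ℂ, EP) P ↦ θ v.proj v.snd)
  bijective : ∀ p : P, Function.Bijective (θ p)
  equivariant : ∀ (p : P) (h : H) (v : TangentSpace 𝓘(ℂ, EP) p),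
    θ (act p h) (mfderiv 𝓘(ℂ, EP) 𝓘(ℂ, EP) (fun q ↦ act q h) p v) = Ad EG (ι h)⁻¹ (θ p v)
  vertical : ∀ (p : P) (A : GroupLieAlgebra 𝓘(ℂ, EH) H),
    θ (act p 1) (mfderiv 𝓘(ℂ, EH) 𝓘(ℂ, EP) (fun h : H ↦ act p h) 1 A) =
      mfderiv 𝓘(ℂ, EH) 𝓘(ℂ, EG) ι 1 A

end Bundles

section Geometry

variable {EG : Type} [NormedAddCommGroup EG] [NormedSpace ℂ EG]
  {G : Type} [TopologicalSpace G] [ChartedSpace EG G] [Group G]
  {EH : Type} [NormedAddCommGroup EH] [NormedSpace ℂ EH]
  {H : Type} [TopologicalSpace H] [ChartedSpace EH H] [Group H]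
  (EM : Type) [NormedAddCommGroup EM] [NormedSpace ℂ EM]
  (M : Type) [TopologicalSpace M] [ChartedSpace EM M]

/-- The complex manifold `M` carries a holomorphic Cartan geometry modelled on `G/H`: there are a
holomorphic principal right `H`-bundle `P → M` and a Cartan connection on `P`. -/
def CarriesCartanGeometry (ι : H →* G) : Prop :=
  ∃ (EP : Type) (_ : NormedAddCommGroup EP) (_ : NormedSpace ℂ EP) (_ : FiniteDimensional ℂ EP)
    (P : Type) (_ : TopologicalSpace P) (_ : T2Space P) (_ : SecondCountableTopology P)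
    (_ : ChartedSpace EP P) (_ : IsManifold 𝓘(ℂ, EP) ω P)
    (π : P → M) (act : P → H → P)
    (θ : ∀ p : P, TangentSpace 𝓘(ℂ, EP) p →L[ℂ] GroupLieAlgebra 𝓘(ℂ, EG) G),
    IsPrincipalBundle (EM := EM) (EP := EP) (EH := EH) π act ∧
      IsCartanConnection (EP := EP) (EH := EH) (EG := EG) ι act θ

end Geometry

section Kahler

variable (E : Type) [NormedAddCommGroup E] [NormedSpace ℂ E]
  {M : Type} [TopologicalSpace M] [ChartedSpace E M]

/-- The Levi form (four times the coefficient form of `∂∂̄φ`) of a real function `φ` at the point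
`x`, in the direction `v`, computed in the preferred chart at `x`:
`D²f(v, v) + D²f(iv, iv)` with `f = φ ∘ chart⁻¹`. -/
def leviForm (φ : M → ℝ) (x : M) (v : E) : ℝ :=
  fderiv ℝ (fun w ↦ fderiv ℝ (φ ∘ (chartAt E x).symm) w v) (chartAt E x x) v +
    fderiv ℝ (fun w ↦ fderiv ℝ (φ ∘ (chartAt E x).symm) w (Complex.I • v)) (chartAt E x x)
      (Complex.I • v)

variable (M) in
/-- The complex manifold `M` is Kähler: it has a Hermitian metric which is locally of the form
`i∂∂̄φ`, with `φ` a smooth real function (a local Kähler potential). In other words, `M` is covered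
by open sets `U x` with smooth strictly plurisubharmonic functions `φ x` on `U x`, any two of which
have the same Levi form on the overlap. -/
def IsKahler : Prop :=
  ∃ (U : M → Set M) (φ : M → M → ℝ),
    (∀ x, IsOpen (U x) ∧ x ∈ U x ∧ ContMDiffOn 𝓘(ℝ, E) 𝓘(ℝ, ℝ) ∞ (φ x) (U x)) ∧
    (∀ x, ∀ y ∈ U x, ∀ v : E, v ≠ 0 → 0 < leviForm E (φ x) y v) ∧
    (∀ x x' y, y ∈ U x → y ∈ U x' → ∀ v : E, leviForm E (φ x) y v = leviForm E (φ x') y v)

end Kahler

end Pool.Agent.Lib.MP_69200a_ag
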