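import Mathlib
import Pool.Agent.Lib.MP_69200a_ag.Defs

/-!
Flat holomorphic Cartan geometries, and quotients of open orbits.
-/

open scoped Manifold ContDiff Topology

noncomputable section

namespace Pool.Agent.Lib.MP_69200a_ag

section Product

variable (EX : Type) [NormedAddCommGroup EX] [NormedSpace ℂ EX]
  (X : Type) [TopologicalSpace X] [ChartedSpace EX X]

/-- `X` is biholomorphic to a product `A × B` of complex manifolds with `A` compact, simply
connected and not a point (for instance `A = ℙ¹`). -/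
def HasSimplyConnectedCompactFactor : Prop :=
  ∃ (EA : Type) (_ : NormedAddCommGroup EA) (_ : NormedSpace ℂ EA)
    (EB : Type) (_ : NormedAddCommGroup EB) (_ : NormedSpace ℂ EB)
    (A : Type) (_ : TopologicalSpace A) (_ : ChartedSpace EA A) (_ : IsManifold 𝓘(ℂ, EA) ω A)
    (B : Type) (_ : TopologicalSpace B) (_ : ChartedSpace EB B) (_ : IsManifold 𝓘(ℂ, EB) ω B),
    CompactSpace A ∧ SimplyConnectedSpace A ∧ Nontrivial A ∧ Nonempty B ∧
      Nonempty (Diffeomorph (𝓘(ℂ, EA).prod 𝓘(ℂ, EB)) 𝓘(ℂ, EX) (A × B) X ω)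

end Product

section Flat

variable {EG : Type} [NormedAddCommGroup EG] [NormedSpace ℂ EG]
  {G : Type} [TopologicalSpace G] [ChartedSpace EG G] [Group G]

variable (EG) in
/-- The (left-invariant) Maurer-Cartan form of `G`: it maps a tangent vector at `g` to the Lie
algebra by the derivative of left translation by `g⁻¹`. -/
def maurerCartan (g : G) (v : TangentSpace 𝓘(ℂ, EG) g) : GroupLieAlgebra 𝓘(ℂ, EG) G :=
  mfderiv 𝓘(ℂ, EG) 𝓘(ℂ, EG) (fun x : G ↦ g⁻¹ * x) g v

variable {EP : Type} [NormedAddCommGroup EP] [NormedSpace ℂ EP]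
  {P : Type} [TopologicalSpace P] [ChartedSpace EP P]

/-- The `𝔤`-valued form `θ` is flat: locally it is the pullback of the Maurer-Cartan form of `G`
under a holomorphic map to `G`. -/
def IsFlat (θ : ∀ p : P, TangentSpace 𝓘(ℂ, EP) p →L[ℂ] GroupLieAlgebra 𝓘(ℂ, EG) G) : Prop :=
  ∀ p : P, ∃ (W : Set P) (F : P → G), IsOpen W ∧ p ∈ W ∧ ContMDiffOn 𝓘(ℂ, EP) 𝓘(ℂ, EG) ω F W ∧
    ∀ q ∈ W, ∀ v : TangentSpace 𝓘(ℂ, EP) q,
      θ q v = maurerCartan EG (F q) (mfderiv 𝓘(ℂ, EP) 𝓘(ℂ, EG) F q v)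

variable {EH : Type} [NormedAddCommGroup EH] [NormedSpace ℂ EH]
  {H : Type} [TopologicalSpace H] [ChartedSpace EH H] [Group H]
  (EM : Type) [NormedAddCommGroup EM] [NormedSpace ℂ EM]
  (M : Type) [TopologicalSpace M] [ChartedSpace EM M]

/-- The complex manifold `M` carries a flat holomorphic Cartan geometry modelled on `G/H`. -/
def CarriesFlatCartanGeometry (ι : H →* G) : Prop :=
  ∃ (EP : Type) (_ : NormedAddCommGroup EP) (_ : NormedSpace ℂ EP) (_ : FiniteDimensional ℂ EP)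
    (P : Type) (_ : TopologicalSpace P) (_ : T2Space P) (_ : SecondCountableTopology P)
    (_ : ChartedSpace EP P) (_ : IsManifold 𝓘(ℂ, EP) ω P)
    (π : P → M) (act : P → H → P)
    (θ : ∀ p : P, TangentSpace 𝓘(ℂ, EP) p →L[ℂ] GroupLieAlgebra 𝓘(ℂ, EG) G),
    IsPrincipalBundle (EM := EM) (EP := EP) (EH := EH) π act ∧
      IsCartanConnection (EP := EP) (EH := EH) (EG := EG) ι act θ ∧
      IsFlat (EP := EP) (EG := EG) θ

variable {M} {EX : Type} [NormedAddCommGroup EX] [NormedSpace ℂ EX]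
  {X : Type} [TopologicalSpace X] [ChartedSpace EX X] [MulAction G X]

/-- `M` is the quotient `Γ'\U'`, through a map `q` which is holomorphic on `U'`, maps `U'` onto `M`
and whose fibres in `U'` are the `Γ'`-orbits. -/
def IsQuotientMap' (Γ' : Subgroup G) (U' : Set X) (q : X → M) : Prop :=
  ContMDiffOn 𝓘(ℂ, EX) 𝓘(ℂ, EM) ω q U' ∧ (∀ m : M, ∃ x ∈ U', q x = m) ∧
    ∀ x ∈ U', ∀ y ∈ U', q x = q y ↔ ∃ γ ∈ Γ', γ • x = y

end Flat

end Pool.Agent.Lib.MP_69200a_ag
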