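import Mathlib
import Pool.Agent.Lib.MP_69200a_ag.Defs

/-!
The quotient of a complex vector space by a lattice as a complex manifold.
-/

open scoped Manifold ContDiff Topology
open Filter Set

noncomputable section

namespace Pool.Agent.Lib.MP_69200a_ag

section General

variable {V : Type} [NormedAddCommGroup V] [NormedSpace ℂ V]
  {M : Type} [TopologicalSpace M] [AddCommGroup M]

/-- Two lifts of the same map differ by a locally constant function. -/
theorem eventually_eq_add {π : V →+ M} (hπ : IsLocalHomeomorph π) {τ : V → V} {v₀ : V}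
    (hc : ContinuousAt τ v₀) (hτ : ∀ᶠ v in 𝓝 v₀, π (τ v) = π v) :
    ∀ᶠ v in 𝓝 v₀, τ v = v + (τ v₀ - v₀) := by
  obtain ⟨e, he, hee⟩ := hπ 0
  have hW : e.source ∈ 𝓝 (0 : V) := e.open_source.mem_nhds he
  have hinj : ∀ u ∈ e.source, π u = 0 → u = 0 := by
    intro u hu h0
    refine e.injOn hu he ?_
    rw [← hee, h0, map_zero]
  have hlim : Tendsto (fun v ↦ (τ v - v) - (τ v₀ - v₀)) (𝓝 v₀) (𝓝 0) := by
    have h1 : ContinuousAt (fun v ↦ (τ v - v) - (τ v₀ - v₀)) v₀ :=
      (hc.sub continuousAt_id).sub continuousAt_const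
    have h2 := h1.tendsto
    simpa using h2
  have h0 : π (τ v₀) = π v₀ := hτ.self_of_nhds
  filter_upwards [hlim hW, hτ] with v hv hv2
  have h3 := hinj _ hv (by rw [map_sub, map_sub, map_sub, hv2, h0]; simp)
  have h4 : τ v = v + (τ v₀ - v₀) := by
    have h5 := sub_eq_zero.1 h3
    rw [← h5]; abel
  exact h4

variable (π : V →+ M) (hπ : IsLocalHomeomorph π) (hs : Function.Surjective π)

/-- The charts of the quotient are the local inverses of the projection. -/
@[reducible] def quotChartedSpace : ChartedSpace V M := hπ.chartedSpace hs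

theorem atlas_symm {e : OpenPartialHomeomorph M V}
    (he : e ∈ (quotChartedSpace π hπ hs).atlas) (v : V) : e.symm v = π v := by
  obtain ⟨q, rfl⟩ := he
  have h := hπ.localInverseAt_symm (Function.surjInv hs q)
  simp only [chartAt_self_eq, OpenPartialHomeomorph.trans_symm_eq_symm_trans_symm,
    OpenPartialHomeomorph.coe_trans, OpenPartialHomeomorph.refl_symm,
    OpenPartialHomeomorph.refl_apply, Function.comp_apply, id_eq]
  rw [IsLocalHomeomorph.localInverseAt_symm]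

theorem proj_chart {e : OpenPartialHomeomorph M V}
    (he : e ∈ (quotChartedSpace π hπ hs).atlas) {y : M} (hy : y ∈ e.source) : π (e y) = y := by
  rw [← atlas_symm π hπ hs he, e.left_inv hy]

/-- Coordinate changes are locally translations. -/
theorem coord_change {e e' : OpenPartialHomeomorph M V}
    (he : e ∈ (quotChartedSpace π hπ hs).atlas) (he' : e' ∈ (quotChartedSpace π hπ hs).atlas)
    {v₀ : V} (hv : v₀ ∈ (e.symm.trans e').source) :
    ∀ᶠ v in 𝓝 v₀, e' (e.symm v) = v + (e' (e.symm v₀) - v₀) := by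
  have hopen : (e.symm.trans e').source ∈ 𝓝 v₀ := (e.symm.trans e').open_source.mem_nhds hv
  refine eventually_eq_add (τ := fun v ↦ e' (e.symm v)) hπ ?_ ?_
  · exact (e.symm.trans e').continuousAt hv
  · filter_upwards [hopen] with v hv2
    rw [OpenPartialHomeomorph.trans_source] at hv2
    rw [proj_chart π hπ hs he' hv2.2, atlas_symm π hπ hs he]

theorem quot_isManifold : @IsManifold ℂ _ V _ _ V _ 𝓘(ℂ, V) ω M _ (quotChartedSpace π hπ hs) := by
  let := quotChartedSpace π hπ hs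
  refine isManifold_of_contDiffOn 𝓘(ℂ, V) ω M ?_
  intro e e' he he'
  simp only [modelWithCornersSelf_coe, modelWithCornersSelf_coe_symm, Function.id_comp,
    Function.comp_id, Set.preimage_id, Set.range_id, Set.inter_univ]
  intro v₀ hv
  have h := coord_change π hπ hs he he' hv
  refine ContDiffAt.contDiffWithinAt ?_
  refine ContDiffAt.congr_of_eventuallyEq (f := fun v ↦ v + (e' (e.symm v₀) - v₀)) ?_ ?_
  · exact contDiffAt_id.add contDiffAt_const
  · exact h

theorem quot_isManifold_real :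
    @IsManifold ℝ _ V _ _ V _ 𝓘(ℝ, V) ∞ M _ (quotChartedSpace π hπ hs) := by
  let := quotChartedSpace π hπ hs
  refine isManifold_of_contDiffOn 𝓘(ℝ, V) ∞ M ?_
  intro e e' he he'
  simp only [modelWithCornersSelf_coe, modelWithCornersSelf_coe_symm, Function.id_comp,
    Function.comp_id, Set.preimage_id, Set.range_id, Set.inter_univ]
  intro v₀ hv
  have h := coord_change π hπ hs he he' hv
  refine ContDiffAt.contDiffWithinAt ?_
  refine ContDiffAt.congr_of_eventuallyEq (f := fun v ↦ v + (e' (e.symm v₀) - v₀)) ?_ ?_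
  · exact contDiffAt_id.add contDiffAt_const
  · exact h

/-- The second component of a tangent vector is a holomorphic function on the tangent bundle. -/
theorem contMDiff_snd :
    letI := quotChartedSpace π hπ hs
    haveI : IsManifold 𝓘(ℂ, V) ω M := quot_isManifold π hπ hs
    ContMDiff (M' := V) 𝓘(ℂ, V).tangent 𝓘(ℂ, V) ω
      (fun v : TangentBundle 𝓘(ℂ, V) M ↦ v.snd) := by
  let := quotChartedSpace π hπ hs
  have : IsManifold 𝓘(ℂ, V) ω M := quot_isManifold π hπ hs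
  intro v₀
  have h1 : ContMDiffAt 𝓘(ℂ, V).tangent 𝓘(ℂ, V).tangent ω
      (fun v : TangentBundle 𝓘(ℂ, V) M ↦ v) v₀ := contMDiffAt_id
  have h2 := (Bundle.contMDiffAt_totalSpace.1 h1).2
  refine h2.congr_of_eventuallyEq ?_
  have hopen : {v : TangentBundle 𝓘(ℂ, V) M | v.proj ∈ (chartAt V v₀.proj).source} ∈ 𝓝 v₀ := by
    have hcont : Continuous (fun v : TangentBundle 𝓘(ℂ, V) M ↦ v.proj) :=
      FiberBundle.continuous_proj V (TangentSpace 𝓘(ℂ, V))
    exact hcont.continuousAt.preimage_mem_nhds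
      ((chartAt V v₀.proj).open_source.mem_nhds (mem_chart_source V v₀.proj))
  filter_upwards [hopen] with v hv
  rw [TangentBundle.trivializationAt_apply]
  have he : chartAt V v.proj ∈ (quotChartedSpace π hπ hs).atlas := chart_mem_atlas V v.proj
  have he' : chartAt V v₀.proj ∈ (quotChartedSpace π hπ hs).atlas := chart_mem_atlas V v₀.proj
  have hsrc : chartAt V v.proj v.proj ∈
      ((chartAt V v.proj).symm.trans (chartAt V v₀.proj)).source := by
    rw [OpenPartialHomeomorph.trans_source]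
    refine ⟨(chartAt V v.proj).map_source (mem_chart_source V v.proj), ?_⟩
    rw [Set.mem_preimage, (chartAt V v.proj).left_inv (mem_chart_source V v.proj)]
    exact hv
  have hcc := coord_change π hπ hs he he' hsrc
  have hfd : fderivWithin ℂ (((chartAt V v₀.proj).extend 𝓘(ℂ, V)) ∘
      ((chartAt V v.proj).extend 𝓘(ℂ, V)).symm) (Set.range 𝓘(ℂ, V))
      (((chartAt V v.proj).extend 𝓘(ℂ, V)) v.proj) = ContinuousLinearMap.id ℂ V := by
    rw [modelWithCornersSelf_coe, Set.range_id, fderivWithin_univ]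
    have h3 : (((chartAt V v₀.proj).extend 𝓘(ℂ, V)) ∘ ((chartAt V v.proj).extend 𝓘(ℂ, V)).symm)
        =ᶠ[𝓝 (chartAt V v.proj v.proj)] fun w ↦ w + (chartAt V v₀.proj
          ((chartAt V v.proj).symm (chartAt V v.proj v.proj)) - chartAt V v.proj v.proj) := hcc
    have h4 := h3.fderiv_eq (𝕜 := ℂ)
    rw [fderiv_add_const, fderiv_fun_id] at h4
    exact h4
  exact (congrArg (fun L : V →L[ℂ] V ↦ L v.snd) hfd).symm

end General

section Kahler

/-- The standard Hermitian norm squared on `ℂ²`. -/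
def nsq (w : ℂ × ℂ) : ℝ := ‖w.1‖ ^ 2 + ‖w.2‖ ^ 2

theorem hasFDerivAt_nsq (w : ℂ × ℂ) :
    HasFDerivAt nsq (2 • (innerSL ℝ w.1).comp (ContinuousLinearMap.fst ℝ ℂ ℂ) +
      2 • (innerSL ℝ w.2).comp (ContinuousLinearMap.snd ℝ ℂ ℂ)) w := by
  have h1 : HasFDerivAt (fun w : ℂ × ℂ ↦ ‖w.1‖ ^ 2)
      (2 • (innerSL ℝ w.1).comp (ContinuousLinearMap.fst ℝ ℂ ℂ)) w :=
    (ContinuousLinearMap.fst ℝ ℂ ℂ).hasFDerivAt.norm_sq
  have h2 : HasFDerivAt (fun w : ℂ × ℂ ↦ ‖w.2‖ ^ 2)
      (2 • (innerSL ℝ w.2).comp (ContinuousLinearMap.snd ℝ ℂ ℂ)) w :=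
    (ContinuousLinearMap.snd ℝ ℂ ℂ).hasFDerivAt.norm_sq
  exact h1.add h2

theorem fderiv_nsq (w u : ℂ × ℂ) :
    fderiv ℝ nsq w u = 2 * (inner ℝ w.1 u.1 + inner ℝ w.2 u.2) := by
  rw [(hasFDerivAt_nsq w).fderiv]
  simp
  ring

theorem fderiv_fderiv_nsq (z u v : ℂ × ℂ) :
    fderiv ℝ (fun w ↦ fderiv ℝ nsq w v) z u = 2 * (inner ℝ u.1 v.1 + inner ℝ u.2 v.2) := by
  have h : (fun w ↦ fderiv ℝ nsq w v) = fun w : ℂ × ℂ ↦
      (2 • ((innerSL ℝ v.1).comp (ContinuousLinearMap.fst ℝ ℂ ℂ) +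
        (innerSL ℝ v.2).comp (ContinuousLinearMap.snd ℝ ℂ ℂ))) w := by
    funext w
    rw [fderiv_nsq]
    simp [real_inner_comm]
    ring
  rw [h, ContinuousLinearMap.fderiv]
  simp [real_inner_comm]
  ring

theorem nsq_smul_I (v : ℂ × ℂ) : nsq (Complex.I • v) = nsq v := by
  simp [nsq]

theorem inner_self_nsq (v : ℂ × ℂ) : inner ℝ v.1 v.1 + inner ℝ v.2 v.2 = nsq v := by
  simp [nsq]

theorem nsq_pos {v : ℂ × ℂ} (hv : v ≠ 0) : 0 < nsq v := by
  have h : v.1 ≠ 0 ∨ v.2 ≠ 0 := by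
    by_contra hcon
    push Not at hcon
    exact hv (Prod.ext hcon.1 hcon.2)
  rcases h with h | h
  · have : 0 < ‖v.1‖ ^ 2 := by positivity
    have h2 : 0 ≤ ‖v.2‖ ^ 2 := by positivity
    unfold nsq; linarith
  · have : 0 < ‖v.2‖ ^ 2 := by positivity
    have h2 : 0 ≤ ‖v.1‖ ^ 2 := by positivity
    unfold nsq; linarith

/-- If a function looks like `w ↦ |w + c|²` in the chart, its Levi form is `4 |v|²`. -/
theorem levi_aux (f : ℂ × ℂ → ℝ) (z c : ℂ × ℂ) (hf : f =ᶠ[𝓝 z] fun w ↦ nsq (w + c)) (v : ℂ × ℂ) :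
    fderiv ℝ (fun w ↦ fderiv ℝ f w v) z v +
      fderiv ℝ (fun w ↦ fderiv ℝ f w (Complex.I • v)) z (Complex.I • v) = 4 * nsq v := by
  have key : ∀ u : ℂ × ℂ, fderiv ℝ (fun w ↦ fderiv ℝ f w u) z u = 2 * nsq u := by
    intro u
    have h1 : (fun w ↦ fderiv ℝ f w u) =ᶠ[𝓝 z] fun w ↦ fderiv ℝ (fun w ↦ nsq (w + c)) w u := by
      filter_upwards [hf.fderiv (𝕜 := ℝ)] with w hw
      rw [hw]
    rw [h1.fderiv_eq]
    have h2 : (fun w ↦ fderiv ℝ (fun w ↦ nsq (w + c)) w u) = fun w ↦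
        (fun w ↦ fderiv ℝ nsq w u) (w + c) := by
      funext w
      rw [fderiv_comp_add_right]
    rw [h2, fderiv_comp_add_right (f := fun w ↦ fderiv ℝ nsq w u), fderiv_fderiv_nsq,
      inner_self_nsq]
  rw [key, key, nsq_smul_I]
  ring

variable {M : Type} [TopologicalSpace M] [AddCommGroup M]
  (π : ℂ × ℂ →+ M) (hπ : IsLocalHomeomorph π) (hs : Function.Surjective π)

theorem quot_isKahler :
    letI := quotChartedSpace π hπ hs
    IsKahler (ℂ × ℂ) M := by
  let := quotChartedSpace π hπ hs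
  have : IsManifold 𝓘(ℂ, ℂ × ℂ) ω M := quot_isManifold π hπ hs
  have hlevi : ∀ x y : M, y ∈ (chartAt (ℂ × ℂ) x).source → ∀ v : ℂ × ℂ,
      leviForm (ℂ × ℂ) (fun y ↦ nsq (chartAt (ℂ × ℂ) x y)) y v = 4 * nsq v := by
    intro x y hy v
    have he : chartAt (ℂ × ℂ) y ∈ (quotChartedSpace π hπ hs).atlas := chart_mem_atlas _ y
    have he' : chartAt (ℂ × ℂ) x ∈ (quotChartedSpace π hπ hs).atlas := chart_mem_atlas _ x
    have hsrc : chartAt (ℂ × ℂ) y y ∈
        ((chartAt (ℂ × ℂ) y).symm.trans (chartAt (ℂ × ℂ) x)).source := by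
      rw [OpenPartialHomeomorph.trans_source]
      refine ⟨(chartAt (ℂ × ℂ) y).map_source (mem_chart_source _ y), ?_⟩
      rw [Set.mem_preimage, (chartAt (ℂ × ℂ) y).left_inv (mem_chart_source _ y)]
      exact hy
    have hcc := coord_change π hπ hs he he' hsrc
    unfold leviForm
    refine levi_aux _ _ (chartAt (ℂ × ℂ) x ((chartAt (ℂ × ℂ) y).symm (chartAt (ℂ × ℂ) y y)) -
      chartAt (ℂ × ℂ) y y) ?_ v
    filter_upwards [hcc] with w hw
    simp only [Function.comp_apply]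
    rw [hw]
  refine ⟨fun x ↦ (chartAt (ℂ × ℂ) x).source, fun x y ↦ nsq (chartAt (ℂ × ℂ) x y), ?_, ?_, ?_⟩
  · intro x
    refine ⟨(chartAt (ℂ × ℂ) x).open_source, mem_chart_source _ x, ?_⟩
    have h1 : ContDiff ℝ ∞ nsq := by
      unfold nsq
      exact (contDiff_fst.norm_sq ℝ).add (contDiff_snd.norm_sq ℝ)
    have h2 : ContMDiffOn 𝓘(ℝ, ℂ × ℂ) 𝓘(ℝ, ℂ × ℂ) ∞ (chartAt (ℂ × ℂ) x)
        (chartAt (ℂ × ℂ) x).source := by
      have : IsManifold 𝓘(ℝ, ℂ × ℂ) ∞ M := quot_isManifold_real π hπ hs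
      exact contMDiffOn_chart
    exact h1.contMDiff.comp_contMDiffOn h2
  · intro x y hy v hv
    rw [hlevi x y hy]
    have := nsq_pos hv
    linarith
  · intro x x' y hy hy' v
    rw [hlevi x y hy, hlevi x' y hy']

end Kahler

end Pool.Agent.Lib.MP_69200a_ag
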