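import Mathlib
import Pool.Agent.Lib.MP_69200a_ag.Defs

/-!
The simply connected complex Lie group `ℂ ⋊ ℂ` with product `(w,t)(w',t') = (w + e^t w', t + t')`.
It has no cocompact lattice.
-/

open scoped Manifold ContDiff Topology
open Filter Set

noncomputable section

namespace Pool.Agent.Lib.MP_69200a_ag

/-- The complex manifold `ℂ²`, to be equipped with a non-abelian group law. -/
def Sol : Type := ℂ × ℂ

namespace Sol

instance : TopologicalSpace Sol := inferInstanceAs (TopologicalSpace (ℂ × ℂ))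
instance : T2Space Sol := inferInstanceAs (T2Space (ℂ × ℂ))
instance : SecondCountableTopology Sol := inferInstanceAs (SecondCountableTopology (ℂ × ℂ))
instance : ConnectedSpace Sol := inferInstanceAs (ConnectedSpace (ℂ × ℂ))
instance : ChartedSpace (ℂ × ℂ) Sol := inferInstanceAs (ChartedSpace (ℂ × ℂ) (ℂ × ℂ))
instance : IsManifold 𝓘(ℂ, ℂ × ℂ) ω Sol :=
  inferInstanceAs (IsManifold 𝓘(ℂ, ℂ × ℂ) ω (ℂ × ℂ))

instance : Group Sol where
  mul a b := (a.1 + Complex.exp a.2 * b.1, a.2 + b.2)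
  one := (0, 0)
  inv a := (-(Complex.exp (-a.2) * a.1), -a.2)
  mul_assoc a b c := by
    change ((_, _) : ℂ × ℂ) = (_, _)
    refine Prod.ext ?_ ?_
    · change a.1 + Complex.exp a.2 * b.1 + Complex.exp (a.2 + b.2) * c.1 =
        a.1 + Complex.exp a.2 * (b.1 + Complex.exp b.2 * c.1)
      rw [Complex.exp_add]; ring
    · change a.2 + b.2 + c.2 = a.2 + (b.2 + c.2)
      ring
  one_mul a := by
    refine Prod.ext ?_ ?_
    · change 0 + Complex.exp 0 * a.1 = a.1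
      rw [Complex.exp_zero]; ring
    · change 0 + a.2 = a.2
      ring
  mul_one a := by
    refine Prod.ext ?_ ?_
    · change a.1 + Complex.exp a.2 * 0 = a.1
      ring
    · change a.2 + 0 = a.2
      ring
  inv_mul_cancel a := by
    refine Prod.ext ?_ ?_
    · change -(Complex.exp (-a.2) * a.1) + Complex.exp (-a.2) * a.1 = 0
      ring
    · change -a.2 + a.2 = 0
      ring

theorem mul_def (a b : Sol) : a * b = ((a.1 + Complex.exp a.2 * b.1, a.2 + b.2) : ℂ × ℂ) := rfl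
theorem one_def : (1 : Sol) = ((0, 0) : ℂ × ℂ) := rfl
theorem inv_def (a : Sol) : a⁻¹ = ((-(Complex.exp (-a.2) * a.1), -a.2) : ℂ × ℂ) := rfl
theorem mul_fst (a b : Sol) : (a * b).1 = a.1 + Complex.exp a.2 * b.1 := rfl
theorem mul_snd (a b : Sol) : (a * b).2 = a.2 + b.2 := rfl
theorem inv_fst (a : Sol) : (a⁻¹).1 = -(Complex.exp (-a.2) * a.1) := rfl
theorem inv_snd (a : Sol) : (a⁻¹).2 = -a.2 := rfl
theorem one_fst : (1 : Sol).1 = 0 := rfl
theorem one_snd : (1 : Sol).2 = 0 := rfl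

theorem contMDiff_mul' : ContMDiff (𝓘(ℂ, ℂ × ℂ).prod 𝓘(ℂ, ℂ × ℂ)) 𝓘(ℂ, ℂ × ℂ) ω
    (fun p : Sol × Sol ↦ p.1 * p.2) := by
  have h : ContDiff ℂ ω (fun p : (ℂ × ℂ) × (ℂ × ℂ) ↦
      ((p.1.1 + Complex.exp p.1.2 * p.2.1, p.1.2 + p.2.2) : ℂ × ℂ)) := by fun_prop
  have h2 := h.contMDiff
  rw [modelWithCornersSelf_prod, ← chartedSpaceSelf_prod] at h2
  exact h2

theorem contMDiff_inv' : ContMDiff 𝓘(ℂ, ℂ × ℂ) 𝓘(ℂ, ℂ × ℂ) ω (fun p : Sol ↦ p⁻¹) := by
  have h : ContDiff ℂ ω (fun p : ℂ × ℂ ↦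
      ((-(Complex.exp (-p.2) * p.1), -p.2) : ℂ × ℂ)) := by fun_prop
  exact h.contMDiff

instance : LieGroup 𝓘(ℂ, ℂ × ℂ) ω Sol where
  contMDiff_mul := contMDiff_mul'
  contMDiff_inv := contMDiff_inv'

instance : IsTopologicalGroup Sol := topologicalGroup_of_lieGroup 𝓘(ℂ, ℂ × ℂ) ω

/-- A continuous real function invariant under right translations by `Γ'` is bounded above if the
coset space is compact. -/
theorem bounded_of_compact (G' Γ' : Subgroup Sol) (hG : G' = ⊤)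
    (hc : CompactSpace (G' ⧸ Γ'.subgroupOf G')) (f : Sol → ℝ) (hf : Continuous f)
    (hinv : ∀ g : Sol, ∀ γ ∈ Γ', f (g * γ) = f g) : ∃ C : ℝ, ∀ g, f g ≤ C := by
  subst hG
  let F : (⊤ : Subgroup Sol) ⧸ Γ'.subgroupOf ⊤ → ℝ := Quotient.lift (fun g : (⊤ : Subgroup Sol) ↦ f g)
    (by
      intro a b hab
      have h1 : a⁻¹ * b ∈ Γ'.subgroupOf ⊤ := QuotientGroup.leftRel_apply.1 hab
      have h2 : ((a : Sol)⁻¹ * b) ∈ Γ' := by
        simpa [Subgroup.mem_subgroupOf] using h1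
      have h3 := hinv (a : Sol) _ h2
      rw [mul_inv_cancel_left] at h3
      exact h3.symm)
  have hF : Continuous F := by
    refine Continuous.quotient_lift ?_ _
    exact hf.comp continuous_subtype_val
  obtain ⟨C, hC⟩ := (isCompact_range hF).bddAbove
  refine ⟨C, fun g ↦ ?_⟩
  exact hC ⟨QuotientGroup.mk (⟨g, Subgroup.mem_top g⟩ : (⊤ : Subgroup Sol)), rfl⟩

theorem continuous_fst' : Continuous (fun g : Sol ↦ g.1) :=
  (continuous_fst : Continuous (Prod.fst : ℂ × ℂ → ℂ))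

theorem continuous_snd' : Continuous (fun g : Sol ↦ g.2) :=
  (continuous_snd : Continuous (Prod.snd : ℂ × ℂ → ℂ))

theorem eq_top_of_open_orbit (G' : Subgroup Sol) (hcl : IsClosed (G' : Set Sol)) (x : Sol)
    (hop : IsOpen {y : Sol | ∃ g ∈ G', g • x = y}) : G' = ⊤ := by
  have h1 : (G' : Set Sol) = (fun g : Sol ↦ g * x) ⁻¹' {y : Sol | ∃ g ∈ G', g • x = y} := by
    ext g
    constructor
    · intro hg
      exact ⟨g, hg, rfl⟩
    · rintro ⟨g', hg', h⟩
      have h2 : g' * x = g * x := h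
      rw [mul_right_cancel h2] at hg'
      exact hg'
  have h2 : IsOpen (G' : Set Sol) := by
    rw [h1]
    exact hop.preimage (continuous_mul_const x)
  have h3 : IsClopen (G' : Set Sol) := ⟨hcl, h2⟩
  have h4 := h3.eq_univ ⟨1, G'.one_mem⟩
  exact SetLike.coe_injective h4

/-- The group `Sol` has no cocompact lattice. -/
theorem no_lattice (G' Γ' : Subgroup Sol) (hG : G' = ⊤) (hd : DiscreteTopology Γ') :
    ¬ CompactSpace (G' ⧸ Γ'.subgroupOf G') := by
  intro hc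
  -- some element of `Γ'` has linear part of modulus smaller than one
  have hγ : ∃ γ ∈ Γ', γ.2.re < 0 := by
    by_contra hcon
    push Not at hcon
    have h0 : ∀ γ ∈ Γ', γ.2.re = 0 := by
      intro γ hγ
      have h1 := hcon γ hγ
      have h2 := hcon γ⁻¹ (Γ'.inv_mem hγ)
      rw [inv_snd, Complex.neg_re] at h2
      linarith
    obtain ⟨C, hC⟩ := bounded_of_compact G' Γ' hG hc (fun g ↦ g.2.re)
      (Complex.continuous_re.comp continuous_snd') (by
        intro g γ hγ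
        change (g.2 + γ.2).re = g.2.re
        rw [Complex.add_re, h0 γ hγ, add_zero])
    have h3 := hC ((0, ((C + 1 : ℝ) : ℂ)) : ℂ × ℂ)
    have h4 : (((C + 1 : ℝ) : ℂ)).re ≤ C := h3
    rw [Complex.ofReal_re] at h4
    linarith
  obtain ⟨γ, hγ, hγre⟩ := hγ
  obtain ⟨a, ha⟩ : ∃ a, a = Complex.exp γ.2 := ⟨_, rfl⟩
  have ha1 : ‖a‖ < 1 := by
    rw [ha, Complex.norm_exp]
    have h1 := Real.exp_lt_exp.2 hγre
    rwa [Real.exp_zero] at h1
  have ha0 : a ≠ 0 := by rw [ha]; exact Complex.exp_ne_zero _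
  have hane : 1 - a ≠ 0 := by
    intro h
    have : a = 1 := (sub_eq_zero.1 h).symm
    rw [this, norm_one] at ha1
    exact lt_irrefl _ ha1
  obtain ⟨z₀, hz₀⟩ : ∃ z₀, z₀ = γ.1 / (1 - a) := ⟨_, rfl⟩
  have hγ1 : γ.1 = (1 - a) * z₀ := by
    rw [hz₀]; field_simp
  -- some element of `Γ'` moves the fixed point of `γ`
  have hδ : ∃ δ ∈ Γ', δ.1 + Complex.exp δ.2 * z₀ ≠ z₀ := by
    by_contra hcon
    push Not at hcon
    obtain ⟨C, hC⟩ := bounded_of_compact G' Γ' hG hc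
      (fun g ↦ (g.1 + Complex.exp g.2 * z₀).re)
      (Complex.continuous_re.comp
        (continuous_fst'.add ((Complex.continuous_exp.comp continuous_snd').mul
          continuous_const))) (by
        intro g δ hδ
        have h1 := hcon δ hδ
        change (g.1 + Complex.exp g.2 * δ.1 + Complex.exp (g.2 + δ.2) * z₀).re =
          (g.1 + Complex.exp g.2 * z₀).re
        have h2 : g.1 + Complex.exp g.2 * δ.1 + Complex.exp (g.2 + δ.2) * z₀ =
            g.1 + Complex.exp g.2 * (δ.1 + Complex.exp δ.2 * z₀) := by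
          rw [Complex.exp_add]; ring
        rw [h2, h1])
    have h3 := hC ((((C + 1 - z₀.re : ℝ) : ℂ), 0) : ℂ × ℂ)
    have h4 : ((((C + 1 - z₀.re : ℝ) : ℂ)) + Complex.exp 0 * z₀).re ≤ C := h3
    rw [Complex.exp_zero, one_mul, Complex.add_re, Complex.ofReal_re] at h4
    linarith
  obtain ⟨δ, hδ, hδne⟩ := hδ
  obtain ⟨c, hc'⟩ : ∃ c, c = Complex.exp δ.2 := ⟨_, rfl⟩
  -- the conjugates
  have hconj : ∀ n : ℕ, ∃ s ∈ Γ', s.1 = z₀ * (1 - c) + a ^ n * (δ.1 + c * z₀ - z₀) ∧ s.2 = δ.2 := by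
    intro n
    induction n with
    | zero => exact ⟨δ, hδ, by ring, rfl⟩
    | succ n ih =>
      obtain ⟨s, hs, hs1, hs2⟩ := ih
      refine ⟨γ * s * γ⁻¹, Γ'.mul_mem (Γ'.mul_mem hγ hs) (Γ'.inv_mem hγ), ?_, ?_⟩
      · rw [mul_fst, mul_fst, mul_snd, inv_fst, hs1, hs2, ← ha, Complex.exp_add, ← ha, ← hc',
          Complex.exp_neg, ← ha, hγ1]
        field_simp
        ring
      · rw [mul_snd, mul_snd, inv_snd, hs2]; ring
  choose s hsΓ hs1 hs2 using hconj
  obtain ⟨L, hL⟩ : ∃ L : Sol, L = ((z₀ * (1 - c), δ.2) : ℂ × ℂ) := ⟨_, rfl⟩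
  have hlim : Tendsto s atTop (𝓝 L) := by
    have h1 : s = fun n ↦ ((z₀ * (1 - c) + a ^ n * (δ.1 + c * z₀ - z₀), δ.2) : ℂ × ℂ) := by
      funext n
      exact Prod.ext (hs1 n) (hs2 n)
    have h2 : Tendsto (fun n : ℕ ↦
        ((z₀ * (1 - c) + a ^ n * (δ.1 + c * z₀ - z₀), δ.2) : ℂ × ℂ)) atTop
        (𝓝 ((z₀ * (1 - c) + 0 * (δ.1 + c * z₀ - z₀), δ.2) : ℂ × ℂ)) := by
      refine Tendsto.prodMk_nhds ?_ tendsto_const_nhds
      exact ((tendsto_pow_atTop_nhds_zero_of_norm_lt_one ha1).mul_const _).const_add _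
    rw [zero_mul, add_zero] at h2
    rw [h1, hL]
    exact h2
  have hclosed : IsClosed (Γ' : Set Sol) := Subgroup.isClosed_of_discrete
  have hLΓ : L ∈ Γ' := hclosed.mem_of_tendsto hlim (Eventually.of_forall hsΓ)
  have hev : ∀ᶠ n in atTop, s n = L := by
    have h1 : Tendsto (fun n ↦ (⟨s n, hsΓ n⟩ : Γ')) atTop (𝓝 ⟨L, hLΓ⟩) := by
      rw [tendsto_subtype_rng]
      exact hlim
    rw [nhds_discrete, tendsto_pure] at h1
    filter_upwards [h1] with n hn
    exact congrArg Subtype.val hn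
  obtain ⟨n, hn⟩ := hev.exists
  have h5 : (s n).1 = z₀ * (1 - c) := by rw [hn, hL]
  rw [hs1 n] at h5
  have h6 : a ^ n * (δ.1 + c * z₀ - z₀) = 0 := by linear_combination h5
  rcases mul_eq_zero.1 h6 with h7 | h7
  · exact pow_ne_zero n ha0 h7
  · exact hδne (by rw [← hc']; exact sub_eq_zero.1 h7)

end Sol

end Pool.Agent.Lib.MP_69200a_ag
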