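import Mathlib
import Pool.Agent.Lib.MP_69200a_ag.Defs
import Pool.Agent.Lib.MP_69200a_ag.Torus
import Pool.Agent.Lib.MP_69200a_ag.Sol

/-!
The complex torus `ℂ²/ℤ[i]²` with its parallelism, seen as a Cartan geometry modelled on the simply
transitive homogeneous space of the group `Sol`.
-/

open scoped Manifold ContDiff Topology
open Filter Set

noncomputable section

namespace Pool.Agent.Lib.MP_69200a_ag

/-- The underlying topological group of the complex torus `ℂ²/ℤ[i]²`. -/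
def Torus : Type :=
  (AddCircle (1 : ℝ) × AddCircle (1 : ℝ)) × (AddCircle (1 : ℝ) × AddCircle (1 : ℝ))

namespace Torus

instance : TopologicalSpace Torus := inferInstanceAs (TopologicalSpace
  ((AddCircle (1 : ℝ) × AddCircle (1 : ℝ)) × (AddCircle (1 : ℝ) × AddCircle (1 : ℝ))))
instance : AddCommGroup Torus := inferInstanceAs (AddCommGroup
  ((AddCircle (1 : ℝ) × AddCircle (1 : ℝ)) × (AddCircle (1 : ℝ) × AddCircle (1 : ℝ))))
instance : T2Space Torus := inferInstanceAs (T2Space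
  ((AddCircle (1 : ℝ) × AddCircle (1 : ℝ)) × (AddCircle (1 : ℝ) × AddCircle (1 : ℝ))))
instance : CompactSpace Torus := inferInstanceAs (CompactSpace
  ((AddCircle (1 : ℝ) × AddCircle (1 : ℝ)) × (AddCircle (1 : ℝ) × AddCircle (1 : ℝ))))
instance : ConnectedSpace Torus := inferInstanceAs (ConnectedSpace
  ((AddCircle (1 : ℝ) × AddCircle (1 : ℝ)) × (AddCircle (1 : ℝ) × AddCircle (1 : ℝ))))
instance : SecondCountableTopology Torus := inferInstanceAs (SecondCountableTopology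
  ((AddCircle (1 : ℝ) × AddCircle (1 : ℝ)) × (AddCircle (1 : ℝ) × AddCircle (1 : ℝ))))

theorem prodMap_isLocalHomeomorph {X Y X' Y' : Type} [TopologicalSpace X] [TopologicalSpace Y]
    [TopologicalSpace X'] [TopologicalSpace Y'] {f : X → Y} {g : X' → Y'}
    (hf : IsLocalHomeomorph f) (hg : IsLocalHomeomorph g) : IsLocalHomeomorph (Prod.map f g) := by
  rintro ⟨x, x'⟩
  obtain ⟨e, he, rfl⟩ := hf x
  obtain ⟨e', he', rfl⟩ := hg x'
  exact ⟨e.prod e', ⟨he, he'⟩, rfl⟩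

/-- The projection `ℂ² → ℂ²/ℤ[i]²`. -/
def proj : ℂ × ℂ →+ Torus where
  toFun w := (((w.1.re : AddCircle (1 : ℝ)), (w.1.im : AddCircle (1 : ℝ))),
    ((w.2.re : AddCircle (1 : ℝ)), (w.2.im : AddCircle (1 : ℝ))))
  map_zero' := rfl
  map_add' _ _ := rfl

theorem proj_isLocalHomeomorph : IsLocalHomeomorph proj := by
  have h1 : IsLocalHomeomorph ((↑) : ℝ → AddCircle (1 : ℝ)) :=
    AddCircle.isLocalHomeomorph_coe (1 : ℝ)
  have h2 := prodMap_isLocalHomeomorph (prodMap_isLocalHomeomorph h1 h1)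
    (prodMap_isLocalHomeomorph h1 h1)
  have h3 : IsLocalHomeomorph
      (Prod.map Complex.equivRealProdCLM Complex.equivRealProdCLM : ℂ × ℂ → (ℝ × ℝ) × (ℝ × ℝ)) :=
    prodMap_isLocalHomeomorph Complex.equivRealProdCLM.toHomeomorph.isLocalHomeomorph
      Complex.equivRealProdCLM.toHomeomorph.isLocalHomeomorph
  exact h2.comp h3

theorem proj_surjective : Function.Surjective proj := by
  rintro ⟨⟨a, b⟩, ⟨c, d⟩⟩
  obtain ⟨a, rfl⟩ := QuotientAddGroup.mk_surjective a
  obtain ⟨b, rfl⟩ := QuotientAddGroup.mk_surjective b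
  obtain ⟨c, rfl⟩ := QuotientAddGroup.mk_surjective c
  obtain ⟨d, rfl⟩ := QuotientAddGroup.mk_surjective d
  exact ⟨(⟨a, b⟩, ⟨c, d⟩), rfl⟩

instance : ChartedSpace (ℂ × ℂ) Torus :=
  quotChartedSpace proj proj_isLocalHomeomorph proj_surjective

instance : IsManifold 𝓘(ℂ, ℂ × ℂ) ω Torus :=
  quot_isManifold proj proj_isLocalHomeomorph proj_surjective

theorem isKahler : IsKahler (ℂ × ℂ) Torus :=
  quot_isKahler proj proj_isLocalHomeomorph proj_surjective

end Torus

instance : LieGroup 𝓘(ℂ, PUnit.{1}) ω PUnit.{1} where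
  contMDiff_mul := contMDiff_const (c := PUnit.unit)
  contMDiff_inv := contMDiff_const (c := PUnit.unit)

/-- The trivial homomorphism. -/
def ι₀ : PUnit.{1} →* Sol := 1

theorem ι₀_closed : IsClosedComplexSubgroup (EG := ℂ × ℂ) (EH := PUnit.{1}) ι₀ where
  holomorphic := contMDiff_const
  isClosedEmbedding := by
    refine ⟨⟨⟨?_⟩, ?_⟩, ?_⟩
    · exact Subsingleton.elim _ _
    · intro a b _; exact Subsingleton.elim _ _
    · have : Set.range ι₀ = {1} := by
        ext x; constructor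
        · rintro ⟨y, rfl⟩; rfl
        · rintro rfl; exact ⟨1, map_one _⟩
      rw [this]; exact isClosed_singleton
  immersion := fun a b _ ↦ Subsingleton.elim (α := PUnit.{1}) a b

theorem sol_homogeneous :
    IsHomogeneousSpace (EG := ℂ × ℂ) (EX := ℂ × ℂ) (X := Sol) ι₀ (1 : Sol) where
  holomorphic := Sol.contMDiff_mul'
  transitive := fun x ↦ ⟨x, mul_one x⟩
  stabilizer := by
    intro g
    constructor
    · intro h
      have h2 : g * 1 = 1 := h
      rw [mul_one] at h2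
      exact ⟨1, by rw [h2]; exact map_one _⟩
    · rintro ⟨h, rfl⟩
      have : ι₀ h = 1 := rfl
      rw [this]; exact mul_one 1
  submersion := by
    have h : (fun g : Sol ↦ g • (1 : Sol)) = id := by
      funext g; exact mul_one g
    rw [h, mfderiv_id]
    exact Function.surjective_id

theorem sol_no_compact_factor : ¬ HasCompactFactor (ℂ × ℂ) Sol := by
  rintro ⟨EA, _, _, EB, _, _, A, _, _, _, B, _, _, _, _, _, _, ⟨b⟩, ⟨Φ⟩⟩
  obtain ⟨a, a', haa⟩ := exists_pair_ne A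
  have h1 : ContMDiff 𝓘(ℂ, EA) (𝓘(ℂ, EA).prod 𝓘(ℂ, EB)) ω (fun x : A ↦ (x, b)) :=
    contMDiff_id.prodMk contMDiff_const
  have h2 : ContMDiff 𝓘(ℂ, EA) 𝓘(ℂ, ℂ × ℂ) ω (fun x : A ↦ Φ (x, b)) :=
    Φ.contMDiff.comp h1
  have h3 : MDifferentiable 𝓘(ℂ, EA) 𝓘(ℂ, ℂ × ℂ) (fun x : A ↦ (Φ (x, b) : ℂ × ℂ)) :=
    h2.mdifferentiable (by simp)
  have h4 := h3.apply_eq_of_compactSpace a a'
  have h5 : Φ (a, b) = Φ (a', b) := h4
  exact haa (congrArg Prod.fst (Φ.injective h5))

/-- The identity, as a form with values in the Lie algebra of `Sol`. -/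
def θ₀ (p : Torus) :
    TangentSpace 𝓘(ℂ, ℂ × ℂ) p →L[ℂ] GroupLieAlgebra 𝓘(ℂ, ℂ × ℂ) Sol :=
  ContinuousLinearMap.id ℂ (ℂ × ℂ)

theorem torus_geometry :
    CarriesCartanGeometry (EG := ℂ × ℂ) (EH := PUnit.{1}) (ℂ × ℂ) Torus ι₀ := by
  refine ⟨ℂ × ℂ, inferInstance, inferInstance, inferInstance, Torus, inferInstance, inferInstance,
    inferInstance, inferInstance, inferInstance, id, fun p _ ↦ p, θ₀, ?_, ?_⟩
  · refine ⟨contMDiff_id, contMDiff_fst, fun _ ↦ rfl, fun _ _ _ ↦ rfl, fun _ _ ↦ rfl, fun x ↦ ?_⟩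
    refine ⟨Set.univ, isOpen_univ, Set.mem_univ _, Prod.fst, fun p ↦ (p, 1), ?_, ?_, ?_, ?_, ?_⟩
    · exact contMDiff_fst.contMDiffOn
    · exact (contMDiff_id.prodMk contMDiff_const).contMDiffOn
    · intro y _ h
      exact ⟨rfl, rfl⟩
    · intro y _ h h'
      rfl
    · intro p _
      exact ⟨rfl, rfl⟩
  · refine ⟨?_, ?_, ?_, ?_⟩
    · exact contMDiff_snd Torus.proj Torus.proj_isLocalHomeomorph Torus.proj_surjective
    · intro p
      exact Function.bijective_id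
    · intro p h v
      have h1 : mfderiv 𝓘(ℂ, ℂ × ℂ) 𝓘(ℂ, ℂ × ℂ) (fun q : Torus ↦ q) p v = v := by
        have : (fun q : Torus ↦ q) = id := rfl
        rw [this, mfderiv_id]; rfl
      have h2 : Ad (ℂ × ℂ) (ι₀ h)⁻¹ (θ₀ p v) = θ₀ p v := by
        have h3 : (fun x : Sol ↦ (ι₀ h)⁻¹ * x * (ι₀ h)⁻¹⁻¹) = id := by
          funext x
          have : ι₀ h = 1 := rfl
          rw [this]; simp
        unfold Ad
        rw [h3, mfderiv_id]; rfl
      rw [h2]
      exact congrArg (θ₀ p) h1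
    · intro p A
      have hA : A = 0 := Subsingleton.elim (α := PUnit.{1}) A 0
      rw [hA, map_zero, map_zero, map_zero]
      rfl

end Pool.Agent.Lib.MP_69200a_ag
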