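import Mathlib
import Pool.Agent.Lib.MP_69200a_ag.Defs
import Pool.Agent.Lib.MP_69200a_ag.FlatDefs
import Pool.Agent.Lib.MP_69200a_ag.Torus
import Pool.Agent.Lib.MP_69200a_ag.Example

/-!
Elliptic curves as complex Lie groups, and their flat translation structures.
-/

open scoped Manifold ContDiff Topology
open Filter Set

noncomputable section

namespace Pool.Agent.Lib.MP_69200a_ag

section General

variable {V : Type} [NormedAddCommGroup V] [NormedSpace ℂ V]
  {M : Type} [TopologicalSpace M] [AddCommGroup M]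
  (π : V →+ M) (hπ : IsLocalHomeomorph π) (hs : Function.Surjective π)

/-- In a chart, the projection is locally a translation. -/
theorem chart_proj {e : OpenPartialHomeomorph M V}
    (he : e ∈ (quotChartedSpace π hπ hs).atlas) {v₀ : V} (hv : π v₀ ∈ e.source) :
    ∀ᶠ v in 𝓝 v₀, e (π v) = v + (e (π v₀) - v₀) := by
  have hcont : ContinuousAt π v₀ := hπ.continuous.continuousAt
  have hopen : π ⁻¹' e.source ∈ 𝓝 v₀ := hcont (e.open_source.mem_nhds hv)
  refine eventually_eq_add (τ := fun v ↦ e (π v)) hπ ?_ ?_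
  · exact ContinuousAt.comp (e.continuousAt hv) hcont
  · filter_upwards [hopen] with v hv2
    exact proj_chart π hπ hs he hv2

theorem proj_contMDiff :
    letI := quotChartedSpace π hπ hs
    ContMDiff 𝓘(ℂ, V) 𝓘(ℂ, V) ω π := by
  let := quotChartedSpace π hπ hs
  have : IsManifold 𝓘(ℂ, V) ω M := quot_isManifold π hπ hs
  intro v₀
  rw [contMDiffAt_iff_target]
  refine ⟨hπ.continuous.continuousAt, ?_⟩
  have h := chart_proj π hπ hs (chart_mem_atlas V (π v₀)) (mem_chart_source V (π v₀))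
  have h2 : (extChartAt 𝓘(ℂ, V) (π v₀) ∘ π) =ᶠ[𝓝 v₀]
      fun v ↦ v + (chartAt V (π v₀) (π v₀) - v₀) := h
  refine ContMDiffAt.congr_of_eventuallyEq ?_ h2
  exact (contDiffAt_id.add contDiffAt_const).contMDiffAt

theorem contMDiffAt_of_lift {E' : Type} [NormedAddCommGroup E'] [NormedSpace ℂ E']
    {H' : Type} [TopologicalSpace H'] {I' : ModelWithCorners ℂ E' H'}
    {N : Type} [TopologicalSpace N] [ChartedSpace H' N] {f : N → M} {g : N → V} {x : N}
    (hg : ContMDiffAt I' 𝓘(ℂ, V) ω g x) (hfg : ∀ᶠ y in 𝓝 x, f y = π (g y)) :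
    letI := quotChartedSpace π hπ hs
    ContMDiffAt I' 𝓘(ℂ, V) ω f x := by
  let := quotChartedSpace π hπ hs
  have h1 : ContMDiffAt I' 𝓘(ℂ, V) ω (π ∘ g) x := (proj_contMDiff π hπ hs).contMDiffAt.comp x hg
  exact h1.congr_of_eventuallyEq hfg

/-- A surjective local homeomorphism of groups is a covering. -/
theorem proj_isCoveringMap {π : V →+ M} (hπ : IsLocalHomeomorph π) (hs : Function.Surjective π) :
    IsCoveringMap π := by
  have hq : Topology.IsQuotientMap π := hπ.isOpenMap.isQuotientMap hπ.continuous hs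
  have hd : IsDiscrete (π.ker : Set V) := by
    refine ⟨discreteTopology_iff_isOpen_singleton.2 ?_⟩
    rintro ⟨x, hx⟩
    obtain ⟨e, he, hee⟩ := hπ 0
    have hx0 : π x = 0 := hx
    refine ⟨(fun v ↦ v - x) ⁻¹' e.source, e.open_source.preimage (by fun_prop), ?_⟩
    ext ⟨y, hy⟩
    have hy0 : π y = 0 := hy
    simp only [Set.mem_preimage, Set.mem_singleton_iff, Subtype.mk.injEq]
    constructor
    · intro h
      have h1 : y - x = 0 := by
        refine e.injOn h he ?_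
        rw [← hee, map_sub, hy0, hx0, map_zero, sub_zero]
      exact sub_eq_zero.1 h1
    · rintro rfl
      rw [sub_self]; exact he
  exact (hq.isAddQuotientCoveringMap_of_isDiscrete_ker_addMonoidHom hd).isCoveringMap

/-- If `f : M → M'` is covered near `x` by a translation, its derivative at `x` is the identity. -/
theorem mfderiv_of_lift {M' : Type} [TopologicalSpace M'] [AddCommGroup M'] (π' : V →+ M')
    (hπ' : IsLocalHomeomorph π') (hs' : Function.Surjective π') {f : M → M'} {x : M} {c : V}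
    (hf : letI := quotChartedSpace π hπ hs
      ∀ᶠ v in 𝓝 (chartAt V x x), f (π v) = π' (v + c)) :
    letI := quotChartedSpace π hπ hs
    letI := quotChartedSpace π' hπ' hs'
    (mfderiv 𝓘(ℂ, V) 𝓘(ℂ, V) f x : V →L[ℂ] V) = ContinuousLinearMap.id ℂ V := by
  let i1 := quotChartedSpace π hπ hs
  let i2 := quotChartedSpace π' hπ' hs'
  have hM : IsManifold 𝓘(ℂ, V) ω M := quot_isManifold π hπ hs
  have hM' : IsManifold 𝓘(ℂ, V) ω M' := quot_isManifold π' hπ' hs'
  have hx : π (chartAt V x x) = x :=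
    proj_chart π hπ hs (chart_mem_atlas V x) (mem_chart_source V x)
  -- differentiability
  have hlift : ∀ᶠ y in 𝓝 x, f y = π' (chartAt V x y + c) := by
    have h1 : Tendsto (chartAt V x) (𝓝 x) (𝓝 (chartAt V x x)) :=
      (chartAt V x).continuousAt (mem_chart_source V x)
    filter_upwards [h1.eventually hf, (chartAt V x).open_source.mem_nhds (mem_chart_source V x)]
      with y hy hy2
    rw [proj_chart π hπ hs (chart_mem_atlas V x) hy2] at hy
    exact hy
  have hch : ContMDiffAt 𝓘(ℂ, V) 𝓘(ℂ, V) ω (fun y : M ↦ chartAt V x y + c) x := by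
    have h1 : ContMDiffAt 𝓘(ℂ, V) 𝓘(ℂ, V) ω (chartAt V x) x :=
      contMDiffOn_chart.contMDiffAt ((chartAt V x).open_source.mem_nhds (mem_chart_source V x))
    have h2 : ContDiff ℂ ω (fun v : V ↦ v + c) := by fun_prop
    exact h2.contMDiff.contMDiffAt.comp x h1
  have hf1 : ContMDiffAt 𝓘(ℂ, V) 𝓘(ℂ, V) ω f x := contMDiffAt_of_lift π' hπ' hs' hch hlift
  have hf2 : MDifferentiableAt 𝓘(ℂ, V) 𝓘(ℂ, V) f x := hf1.mdifferentiableAt (by simp)
  have hfx : f x = π' (chartAt V x x + c) := hlift.self_of_nhds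
  have h3 : ∀ᶠ v in 𝓝 (chartAt V x x), chartAt V (f x) (π' (v + c)) =
      v + c + (chartAt V (f x) (π' (chartAt V x x + c)) - (chartAt V x x + c)) := by
    have h4 := chart_proj π' hπ' hs' (chart_mem_atlas V (f x)) (v₀ := chartAt V x x + c)
      (by rw [← hfx]; exact mem_chart_source V (f x))
    have h5 : Tendsto (fun v ↦ v + c) (𝓝 (chartAt V x x)) (𝓝 (chartAt V x x + c)) := by
      have : ContinuousAt (fun v ↦ v + c) (chartAt V x x) := by fun_prop
      exact this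
    exact h5.eventually h4
  have h6 : writtenInExtChartAt 𝓘(ℂ, V) 𝓘(ℂ, V) x f =ᶠ[𝓝 (chartAt V x x)]
      fun v ↦ v + (c + (chartAt V (f x) (π' (chartAt V x x + c)) - (chartAt V x x + c))) := by
    filter_upwards [h3, hf] with v hv hv2
    change chartAt V (f x) (f ((chartAt V x).symm v)) = _
    rw [atlas_symm π hπ hs (chart_mem_atlas V x), hv2, hv, add_assoc]
  have h7 := h6.fderiv_eq (𝕜 := ℂ)
  rw [fderiv_add_const, fderiv_fun_id] at h7
  have h8 : fderivWithin ℂ (writtenInExtChartAt 𝓘(ℂ, V) 𝓘(ℂ, V) x f) (Set.range 𝓘(ℂ, V))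
      (extChartAt 𝓘(ℂ, V) x x) = ContinuousLinearMap.id ℂ V := by
    rw [modelWithCornersSelf_coe, Set.range_id, fderivWithin_univ]
    exact h7
  exact hf2.mfderiv.trans h8

end General

section KahlerOne

theorem fderiv_normsq (w u : ℂ) : fderiv ℝ (fun w : ℂ ↦ ‖w‖ ^ 2) w u = 2 * inner ℝ w u := by
  rw [fderiv_norm_sq]
  simp
  ring

theorem fderiv_fderiv_normsq (z u v : ℂ) :
    fderiv ℝ (fun w ↦ fderiv ℝ (fun w : ℂ ↦ ‖w‖ ^ 2) w v) z u = 2 * inner ℝ u v := by
  have h : (fun w ↦ fderiv ℝ (fun w : ℂ ↦ ‖w‖ ^ 2) w v) = fun w : ℂ ↦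
      (2 • (innerSL ℝ v)) w := by
    funext w
    rw [fderiv_normsq]
    simp [real_inner_comm]
    ring
  rw [h, ContinuousLinearMap.fderiv]
  simp [real_inner_comm]
  ring

theorem levi_aux_one (f : ℂ → ℝ) (z c : ℂ) (hf : f =ᶠ[𝓝 z] fun w ↦ ‖w + c‖ ^ 2) (v : ℂ) :
    fderiv ℝ (fun w ↦ fderiv ℝ f w v) z v +
      fderiv ℝ (fun w ↦ fderiv ℝ f w (Complex.I • v)) z (Complex.I • v) = 4 * ‖v‖ ^ 2 := by
  have key : ∀ u : ℂ, fderiv ℝ (fun w ↦ fderiv ℝ f w u) z u = 2 * ‖u‖ ^ 2 := by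
    intro u
    have h1 : (fun w ↦ fderiv ℝ f w u) =ᶠ[𝓝 z]
        fun w ↦ fderiv ℝ (fun w : ℂ ↦ ‖w + c‖ ^ 2) w u := by
      filter_upwards [hf.fderiv (𝕜 := ℝ)] with w hw
      rw [hw]
    rw [h1.fderiv_eq]
    have h2 : (fun w ↦ fderiv ℝ (fun w : ℂ ↦ ‖w + c‖ ^ 2) w u) = fun w ↦
        (fun w ↦ fderiv ℝ (fun w : ℂ ↦ ‖w‖ ^ 2) w u) (w + c) := by
      funext w
      rw [fderiv_comp_add_right (f := fun w : ℂ ↦ ‖w‖ ^ 2)]
    rw [h2, fderiv_comp_add_right (f := fun w ↦ fderiv ℝ (fun w : ℂ ↦ ‖w‖ ^ 2) w u),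
      fderiv_fderiv_normsq, real_inner_self_eq_norm_sq]
  rw [key, key]
  simp
  ring

variable {M : Type} [TopologicalSpace M] [AddCommGroup M]
  (π : ℂ →+ M) (hπ : IsLocalHomeomorph π) (hs : Function.Surjective π)

theorem quot_isKahler_one :
    letI := quotChartedSpace π hπ hs
    IsKahler ℂ M := by
  let := quotChartedSpace π hπ hs
  have : IsManifold 𝓘(ℂ, ℂ) ω M := quot_isManifold π hπ hs
  have hlevi : ∀ x y : M, y ∈ (chartAt ℂ x).source → ∀ v : ℂ,
      leviForm ℂ (fun y ↦ ‖chartAt ℂ x y‖ ^ 2) y v = 4 * ‖v‖ ^ 2 := by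
    intro x y hy v
    have he : chartAt ℂ y ∈ (quotChartedSpace π hπ hs).atlas := chart_mem_atlas _ y
    have he' : chartAt ℂ x ∈ (quotChartedSpace π hπ hs).atlas := chart_mem_atlas _ x
    have hsrc : chartAt ℂ y y ∈
        ((chartAt ℂ y).symm.trans (chartAt ℂ x)).source := by
      rw [OpenPartialHomeomorph.trans_source]
      refine ⟨(chartAt ℂ y).map_source (mem_chart_source _ y), ?_⟩
      rw [Set.mem_preimage, (chartAt ℂ y).left_inv (mem_chart_source _ y)]
      exact hy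
    have hcc := coord_change π hπ hs he he' hsrc
    unfold leviForm
    refine levi_aux_one _ _ (chartAt ℂ x ((chartAt ℂ y).symm (chartAt ℂ y y)) -
      chartAt ℂ y y) ?_ v
    filter_upwards [hcc] with w hw
    simp only [Function.comp_apply]
    rw [hw]
  refine ⟨fun x ↦ (chartAt ℂ x).source, fun x y ↦ ‖chartAt ℂ x y‖ ^ 2, ?_, ?_, ?_⟩
  · intro x
    refine ⟨(chartAt ℂ x).open_source, mem_chart_source _ x, ?_⟩
    have h1 : ContDiff ℝ ∞ (fun w : ℂ ↦ ‖w‖ ^ 2) := contDiff_norm_sq ℝ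
    have h2 : ContMDiffOn 𝓘(ℝ, ℂ) 𝓘(ℝ, ℂ) ∞ (chartAt ℂ x) (chartAt ℂ x).source := by
      have : IsManifold 𝓘(ℝ, ℂ) ∞ M := quot_isManifold_real π hπ hs
      exact contMDiffOn_chart
    exact h1.contMDiff.comp_contMDiffOn h2
  · intro x y hy v hv
    rw [hlevi x y hy]
    have : 0 < ‖v‖ := norm_pos_iff.2 hv
    positivity
  · intro x x' y hy hy' v
    rw [hlevi x y hy, hlevi x' y hy']

end KahlerOne

/-- The elliptic curve `ℂ/(ℤ + ℤ s i)`, with its group law written both additively and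
multiplicatively. -/
def Ell (_ : ℝ) : Type := AddCircle (1 : ℝ) × AddCircle (1 : ℝ)

namespace Ell

variable (s : ℝ)

instance : TopologicalSpace (Ell s) :=
  inferInstanceAs (TopologicalSpace (AddCircle (1 : ℝ) × AddCircle (1 : ℝ)))
instance : AddCommGroup (Ell s) :=
  inferInstanceAs (AddCommGroup (AddCircle (1 : ℝ) × AddCircle (1 : ℝ)))
instance : IsTopologicalAddGroup (Ell s) :=
  inferInstanceAs (IsTopologicalAddGroup (AddCircle (1 : ℝ) × AddCircle (1 : ℝ)))
instance : T2Space (Ell s) :=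
  inferInstanceAs (T2Space (AddCircle (1 : ℝ) × AddCircle (1 : ℝ)))
instance : CompactSpace (Ell s) :=
  inferInstanceAs (CompactSpace (AddCircle (1 : ℝ) × AddCircle (1 : ℝ)))
instance : ConnectedSpace (Ell s) :=
  inferInstanceAs (ConnectedSpace (AddCircle (1 : ℝ) × AddCircle (1 : ℝ)))
instance : SecondCountableTopology (Ell s) :=
  inferInstanceAs (SecondCountableTopology (AddCircle (1 : ℝ) × AddCircle (1 : ℝ)))

instance : Group (Ell s) where
  mul a b := a + b
  one := 0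
  inv a := -a
  mul_assoc a b c := add_assoc a b c
  one_mul a := zero_add a
  mul_one a := add_zero a
  inv_mul_cancel a := neg_add_cancel a

theorem mul_def (a b : Ell s) : a * b = a + b := rfl
theorem one_def : (1 : Ell s) = 0 := rfl
theorem inv_def (a : Ell s) : a⁻¹ = -a := rfl

/-- The projection `ℂ → ℂ/(ℤ + ℤ s i)`. -/
def proj : ℂ →+ Ell s where
  toFun w := ((w.re : AddCircle (1 : ℝ)), ((w.im / s : ℝ) : AddCircle (1 : ℝ)))
  map_zero' := by
    refine Prod.ext rfl ?_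
    change (((0 : ℂ).im / s : ℝ) : AddCircle (1 : ℝ)) = 0
    rw [Complex.zero_im, zero_div]; rfl
  map_add' a b := by
    refine Prod.ext rfl ?_
    change (((a + b).im / s : ℝ) : AddCircle (1 : ℝ)) = ((a.im / s : ℝ) : AddCircle (1 : ℝ)) +
      ((b.im / s : ℝ) : AddCircle (1 : ℝ))
    rw [Complex.add_im, add_div]; rfl

theorem proj_eq_zero_iff (w : ℂ) : proj s w = 0 ↔ (∃ m : ℤ, w.re = m) ∧ ∃ n : ℤ, w.im / s = n := by
  have h : proj s w = 0 ↔ (w.re : AddCircle (1 : ℝ)) = 0 ∧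
      ((w.im / s : ℝ) : AddCircle (1 : ℝ)) = 0 := Prod.ext_iff
  rw [h, AddCircle.coe_eq_zero_iff, AddCircle.coe_eq_zero_iff]
  constructor
  · rintro ⟨⟨m, hm⟩, ⟨n, hn⟩⟩
    exact ⟨⟨m, by rw [← hm]; simp⟩, ⟨n, by rw [← hn]; simp⟩⟩
  · rintro ⟨⟨m, hm⟩, ⟨n, hn⟩⟩
    exact ⟨⟨m, by rw [hm]; simp⟩, ⟨n, by rw [hn]; simp⟩⟩

variable [hs0 : Fact (s ≠ 0)]

theorem proj_isLocalHomeomorph : IsLocalHomeomorph (proj s) := by
  have h1 : IsLocalHomeomorph ((↑) : ℝ → AddCircle (1 : ℝ)) :=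
    AddCircle.isLocalHomeomorph_coe (1 : ℝ)
  have h2 := Torus.prodMap_isLocalHomeomorph h1 h1
  have h4 : IsLocalHomeomorph (fun x : ℝ ↦ x / s) := by
    have h5 := (Homeomorph.mulRight₀ s⁻¹ (inv_ne_zero hs0.out)).isLocalHomeomorph
    have h6 : (fun x : ℝ ↦ x / s) = Homeomorph.mulRight₀ s⁻¹ (inv_ne_zero hs0.out) := by
      funext x; exact div_eq_mul_inv x s
    rw [h6]; exact h5
  have h3 : IsLocalHomeomorph (Prod.map id (fun x : ℝ ↦ x / s) : ℝ × ℝ → ℝ × ℝ) :=
    Torus.prodMap_isLocalHomeomorph (Homeomorph.refl ℝ).isLocalHomeomorph h4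
  exact h2.comp (h3.comp Complex.equivRealProdCLM.toHomeomorph.isLocalHomeomorph)

theorem proj_surjective : Function.Surjective (proj s) := by
  rintro ⟨a, b⟩
  obtain ⟨a, rfl⟩ := QuotientAddGroup.mk_surjective a
  obtain ⟨b, rfl⟩ := QuotientAddGroup.mk_surjective b
  refine ⟨⟨a, b * s⟩, ?_⟩
  refine Prod.ext rfl ?_
  change (((b * s) / s : ℝ) : AddCircle (1 : ℝ)) = _
  rw [mul_div_cancel_right₀ _ hs0.out]

instance : ChartedSpace ℂ (Ell s) :=
  quotChartedSpace (proj s) (proj_isLocalHomeomorph s) (proj_surjective s)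

instance : IsManifold 𝓘(ℂ, ℂ) ω (Ell s) :=
  quot_isManifold (proj s) (proj_isLocalHomeomorph s) (proj_surjective s)

theorem isKahler : IsKahler ℂ (Ell s) :=
  quot_isKahler_one (proj s) (proj_isLocalHomeomorph s) (proj_surjective s)

theorem proj_chartAt (x : Ell s) {y : Ell s} (hy : y ∈ (chartAt ℂ x).source) :
    proj s (chartAt ℂ x y) = y :=
  proj_chart (proj s) (proj_isLocalHomeomorph s) (proj_surjective s) (chart_mem_atlas ℂ x) hy

theorem contMDiffAt_chart (x : Ell s) :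
    ContMDiffAt 𝓘(ℂ, ℂ) 𝓘(ℂ, ℂ) ω (chartAt ℂ x : Ell s → ℂ) x :=
  contMDiffOn_chart.contMDiffAt ((chartAt ℂ x).open_source.mem_nhds (mem_chart_source ℂ x))

instance : LieGroup 𝓘(ℂ, ℂ) ω (Ell s) where
  contMDiff_mul := by
    rintro ⟨a, b⟩
    refine contMDiffAt_of_lift (proj s) (proj_isLocalHomeomorph s) (proj_surjective s)
      (g := fun p : Ell s × Ell s ↦ chartAt ℂ a p.1 + chartAt ℂ b p.2) ?_ ?_
    · have h1 : ContMDiffAt (𝓘(ℂ, ℂ).prod 𝓘(ℂ, ℂ)) 𝓘(ℂ, ℂ) ω
          (fun p : Ell s × Ell s ↦ (chartAt ℂ a p.1 : ℂ)) (a, b) :=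
        (contMDiffAt_chart s a).comp (a, b) contMDiffAt_fst
      have h2 : ContMDiffAt (𝓘(ℂ, ℂ).prod 𝓘(ℂ, ℂ)) 𝓘(ℂ, ℂ) ω
          (fun p : Ell s × Ell s ↦ (chartAt ℂ b p.2 : ℂ)) (a, b) :=
        (contMDiffAt_chart s b).comp (a, b) contMDiffAt_snd
      exact h1.add h2
    · have h1 : {p : Ell s × Ell s | p.1 ∈ (chartAt ℂ a).source} ∈ 𝓝 (a, b) :=
        continuous_fst.continuousAt
          ((chartAt ℂ a).open_source.mem_nhds (mem_chart_source ℂ a))
      have h2 : {p : Ell s × Ell s | p.2 ∈ (chartAt ℂ b).source} ∈ 𝓝 (a, b) :=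
        continuous_snd.continuousAt
          ((chartAt ℂ b).open_source.mem_nhds (mem_chart_source ℂ b))
      filter_upwards [h1, h2] with p hp hp2
      rw [map_add, proj_chartAt s a hp, proj_chartAt s b hp2]; rfl
  contMDiff_inv := by
    intro a
    refine contMDiffAt_of_lift (proj s) (proj_isLocalHomeomorph s) (proj_surjective s)
      (g := fun p : Ell s ↦ -chartAt ℂ a p) ?_ ?_
    · exact (contMDiffAt_chart s a).neg
    · filter_upwards [(chartAt ℂ a).open_source.mem_nhds (mem_chart_source ℂ a)] with p hp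
      rw [map_neg, proj_chartAt s a hp]; rfl

instance : IsTopologicalGroup (Ell s) := topologicalGroup_of_lieGroup 𝓘(ℂ, ℂ) ω

end Ell

end Pool.Agent.Lib.MP_69200a_ag
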