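import Mathlib
import Pool.Agent.Lib.MP_69200a_ag.Defs
import Pool.Agent.Lib.MP_69200a_ag.FlatDefs
import Pool.Agent.Lib.MP_69200a_ag.Torus
import Pool.Agent.Lib.MP_69200a_ag.Elliptic

/-!
Flat geometries on elliptic curves modelled on another elliptic curve.
-/

open scoped Manifold ContDiff Topology
open Filter Set

noncomputable section

namespace Pool.Agent.Lib.MP_69200a_ag

section Self

variable {EG : Type} [NormedAddCommGroup EG] [NormedSpace ℂ EG]
  (G : Type) [TopologicalSpace G] [T2Space G] [ChartedSpace EG G] [Group G]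
  [LieGroup 𝓘(ℂ, EG) ω G]

/-- The trivial homomorphism. -/
def trivialHom : PUnit.{1} →* G := 1

theorem trivialHom_closed :
    IsClosedComplexSubgroup (EG := EG) (EH := PUnit.{1}) (trivialHom G) where
  holomorphic := contMDiff_const
  isClosedEmbedding := by
    refine ⟨⟨⟨?_⟩, ?_⟩, ?_⟩
    · exact Subsingleton.elim _ _
    · intro a b _; exact Subsingleton.elim _ _
    · have : Set.range (trivialHom G) = {1} := by
        ext x; constructor
        · rintro ⟨y, rfl⟩; rfl
        · rintro rfl; exact ⟨1, map_one _⟩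
      rw [this]; exact isClosed_singleton
  immersion := fun a b _ ↦ Subsingleton.elim (α := PUnit.{1}) a b

theorem self_homogeneous :
    IsHomogeneousSpace (EG := EG) (EX := EG) (X := G) (trivialHom G) (1 : G) where
  holomorphic := contMDiff_mul 𝓘(ℂ, EG) ω
  transitive := fun x ↦ ⟨x, mul_one x⟩
  stabilizer := by
    intro g
    constructor
    · intro h
      have h2 : g * 1 = 1 := h
      rw [mul_one] at h2
      exact ⟨1, by rw [h2]; exact map_one _⟩
    · rintro ⟨h, rfl⟩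
      have : trivialHom G h = 1 := rfl
      rw [this]; exact mul_one 1
  submersion := by
    have h : (fun g : G ↦ g • (1 : G)) = id := by
      funext g; exact mul_one g
    rw [h, mfderiv_id]
    exact Function.surjective_id

end Self

theorem eq_top_of_open_orbit {G : Type} [TopologicalSpace G] [Group G] [IsTopologicalGroup G]
    [ConnectedSpace G] (G' : Subgroup G) (hcl : IsClosed (G' : Set G))
    (x : G) (hop : IsOpen {y : G | ∃ g ∈ G', g • x = y}) : G' = ⊤ := by
  have h1 : (G' : Set G) = (fun g : G ↦ g * x) ⁻¹' {y : G | ∃ g ∈ G', g • x = y} := by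
    ext g
    constructor
    · intro hg
      exact ⟨g, hg, rfl⟩
    · rintro ⟨g', hg', h⟩
      have h2 : g' * x = g * x := h
      rw [mul_right_cancel h2] at hg'
      exact hg'
  have h2 : IsOpen (G' : Set G) := by
    rw [h1]
    exact hop.preimage (continuous_mul_const x)
  have h3 : IsClopen (G' : Set G) := ⟨hcl, h2⟩
  have h4 := h3.eq_univ ⟨1, G'.one_mem⟩
  exact SetLike.coe_injective h4

namespace Ell

variable (s t : ℝ) [Fact (s ≠ 0)] [Fact (t ≠ 0)]

theorem no_factor : ¬ HasSimplyConnectedCompactFactor ℂ (Ell s) := by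
  rintro ⟨EA, _, _, EB, _, _, A, _, _, _, B, _, _, _, _, _, _, ⟨b⟩, ⟨Φ⟩⟩
  obtain ⟨a, a', haa⟩ := exists_pair_ne A
  have h1 : ContMDiff 𝓘(ℂ, EA) (𝓘(ℂ, EA).prod 𝓘(ℂ, EB)) ω (fun x : A ↦ (x, b)) :=
    contMDiff_id.prodMk contMDiff_const
  have h2 : ContMDiff 𝓘(ℂ, EA) 𝓘(ℂ, ℂ) ω (fun x : A ↦ Φ (x, b)) :=
    Φ.contMDiff.comp h1
  have hlpc : LocallyPathConnectedSpace A := ChartedSpace.locallyPathConnectedSpace EA A
  have hcov := proj_isCoveringMap (proj_isLocalHomeomorph s) (proj_surjective s)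
  obtain ⟨e₀, he₀⟩ := proj_surjective s (Φ (a, b))
  obtain ⟨F, ⟨hF1, hF2⟩, -⟩ := hcov.existsUnique_continuousMap_lifts
    (⟨fun x : A ↦ Φ (x, b), h2.continuous⟩ : C(A, Ell s)) a e₀ he₀
  have hF3 : ∀ x : A, proj s (F x) = Φ (x, b) := fun x ↦ congrFun hF2 x
  -- the lift is holomorphic
  have h3 : ContMDiff 𝓘(ℂ, EA) 𝓘(ℂ, ℂ) ω (fun x : A ↦ F x) := by
    intro x
    have hF4 : ContinuousAt F x := F.continuous.continuousAt
    have h4 := chart_proj (proj s) (proj_isLocalHomeomorph s) (proj_surjective s)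
      (chart_mem_atlas ℂ (Φ (x, b))) (v₀ := F x) (by rw [hF3]; exact mem_chart_source ℂ _)
    have h5 : ContMDiffAt 𝓘(ℂ, EA) 𝓘(ℂ, ℂ) ω
        (fun y : A ↦ chartAt ℂ (Φ (x, b)) (Φ (y, b)) -
          (chartAt ℂ (Φ (x, b)) (proj s (F x)) - F x)) x :=
      ((contMDiffAt_chart s (Φ (x, b))).comp x h2.contMDiffAt).sub contMDiffAt_const
    refine h5.congr_of_eventuallyEq ?_
    filter_upwards [hF4.tendsto.eventually h4] with y hy
    rw [hF3] at hy
    rw [hy]; ring
  have h6 : MDifferentiable 𝓘(ℂ, EA) 𝓘(ℂ, ℂ) (fun x : A ↦ F x) := h3.mdifferentiable (by simp)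
  have h7 := h6.apply_eq_of_compactSpace a a'
  have h8 : Φ (a, b) = Φ (a', b) := by
    rw [← hF3, ← hF3]; exact congrArg _ h7
  exact haa (congrArg Prod.fst (Φ.injective h8))

/-- The identity, as a form on `ℂ/(ℤ + ℤ t i)` with values in the Lie algebra of
`ℂ/(ℤ + ℤ s i)`. -/
def θ (p : Ell t) : TangentSpace 𝓘(ℂ, ℂ) p →L[ℂ] GroupLieAlgebra 𝓘(ℂ, ℂ) (Ell s) :=
  ContinuousLinearMap.id ℂ ℂ

theorem maurerCartan_apply (g : Ell s) (v : TangentSpace 𝓘(ℂ, ℂ) g) :
    maurerCartan ℂ g v = v := by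
  obtain ⟨c, hc⟩ := proj_surjective s (-g)
  have h := mfderiv_of_lift (proj s) (proj_isLocalHomeomorph s) (proj_surjective s)
    (proj s) (proj_isLocalHomeomorph s) (proj_surjective s) (f := fun x : Ell s ↦ g⁻¹ * x)
    (x := g) (c := c) (Eventually.of_forall fun v ↦ by
      rw [map_add, hc]; exact add_comm _ _)
  exact congrArg (fun L : ℂ →L[ℂ] ℂ ↦ L v) h

theorem θ_flat : IsFlat (EP := ℂ) (EG := ℂ) (θ s t) := by
  intro p
  refine ⟨(chartAt ℂ p).source, fun q ↦ proj s (chartAt ℂ p q), (chartAt ℂ p).open_source,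
    mem_chart_source ℂ p, ?_, ?_⟩
  · exact (proj_contMDiff (proj s) (proj_isLocalHomeomorph s)
      (proj_surjective s)).comp_contMDiffOn contMDiffOn_chart
  · intro q hq v
    have hsrc : chartAt ℂ q q ∈ ((chartAt ℂ q).symm.trans (chartAt ℂ p)).source := by
      rw [OpenPartialHomeomorph.trans_source]
      refine ⟨(chartAt ℂ q).map_source (mem_chart_source _ q), ?_⟩
      rw [Set.mem_preimage, (chartAt ℂ q).left_inv (mem_chart_source _ q)]
      exact hq
    have hcc := coord_change (proj t) (proj_isLocalHomeomorph t) (proj_surjective t)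
      (chart_mem_atlas ℂ q) (chart_mem_atlas ℂ p) hsrc
    have h := mfderiv_of_lift (proj t) (proj_isLocalHomeomorph t) (proj_surjective t)
      (proj s) (proj_isLocalHomeomorph s) (proj_surjective s)
      (f := fun q : Ell t ↦ proj s (chartAt ℂ p q)) (x := q) (by
        filter_upwards [hcc] with w hw
        rw [atlas_symm (proj t) (proj_isLocalHomeomorph t) (proj_surjective t)
          (chart_mem_atlas ℂ q)] at hw
        rw [hw])
    rw [maurerCartan_apply]
    exact (congrArg (fun L : ℂ →L[ℂ] ℂ ↦ L v) h).symm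

theorem flat_geometry :
    CarriesFlatCartanGeometry (EG := ℂ) (EH := PUnit.{1}) ℂ (Ell t) (trivialHom (Ell s)) := by
  refine ⟨ℂ, inferInstance, inferInstance, inferInstance, Ell t, inferInstance, inferInstance,
    inferInstance, inferInstance, inferInstance, id, fun p _ ↦ p, θ s t, ?_, ?_, θ_flat s t⟩
  · refine ⟨contMDiff_id, contMDiff_fst, fun _ ↦ rfl, fun _ _ _ ↦ rfl, fun _ _ ↦ rfl, fun x ↦ ?_⟩
    refine ⟨Set.univ, isOpen_univ, Set.mem_univ _, Prod.fst, fun p ↦ (p, 1), ?_, ?_, ?_, ?_, ?_⟩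
    · exact contMDiff_fst.contMDiffOn
    · exact (contMDiff_id.prodMk contMDiff_const).contMDiffOn
    · intro y _ h
      exact ⟨rfl, rfl⟩
    · intro y _ h h'
      rfl
    · intro p _
      exact ⟨rfl, rfl⟩
  · refine ⟨?_, ?_, ?_, ?_⟩
    · exact contMDiff_snd (proj t) (proj_isLocalHomeomorph t) (proj_surjective t)
    · intro p
      exact Function.bijective_id
    · intro p h v
      have h1 : mfderiv 𝓘(ℂ, ℂ) 𝓘(ℂ, ℂ) (fun q : Ell t ↦ q) p v = v := by
        have : (fun q : Ell t ↦ q) = id := rfl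
        rw [this, mfderiv_id]; rfl
      have h2 : Ad ℂ (trivialHom (Ell s) h)⁻¹ (θ s t p v) = θ s t p v := by
        have h3 : (fun x : Ell s ↦
            (trivialHom (Ell s) h)⁻¹ * x * (trivialHom (Ell s) h)⁻¹⁻¹) = id := by
          funext x
          have : trivialHom (Ell s) h = 1 := rfl
          rw [this]; simp
        unfold Ad
        rw [h3, mfderiv_id]; rfl
      rw [h2]
      exact congrArg (θ s t p) h1
    · intro p A
      have hA : A = 0 := Subsingleton.elim (α := PUnit.{1}) A 0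
      rw [hA, map_zero, map_zero, map_zero]
      rfl

/-- A holomorphic map between elliptic curves is affine. -/
theorem affine_of_holomorphic (q : Ell s → Ell t) (hq : ContMDiff 𝓘(ℂ, ℂ) 𝓘(ℂ, ℂ) ω q) :
    ∃ α : ℂ, ∀ z : ℂ, q (proj s z) = proj t (α * z) + q 0 := by
  obtain ⟨f, hf⟩ : ∃ f : ℂ → Ell t, f = fun z ↦ q (proj s z) := ⟨_, rfl⟩
  have hf1 : ContMDiff 𝓘(ℂ, ℂ) 𝓘(ℂ, ℂ) ω f := by
    rw [hf]
    exact hq.comp (proj_contMDiff (proj s) (proj_isLocalHomeomorph s) (proj_surjective s))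
  obtain ⟨D, hD⟩ : ∃ D : ℂ → ℂ, D = fun z ↦ deriv (fun w ↦ chartAt ℂ (f z) (f w)) z := ⟨_, rfl⟩
  -- the local expression is holomorphic
  have hg : ∀ z₀, AnalyticAt ℂ (fun w ↦ chartAt ℂ (f z₀) (f w)) z₀ := by
    intro z₀
    have h1 : ContMDiffAt 𝓘(ℂ, ℂ) 𝓘(ℂ, ℂ) ω (fun w ↦ chartAt ℂ (f z₀) (f w)) z₀ :=
      (contMDiffAt_chart t (f z₀)).comp z₀ hf1.contMDiffAt
    have h2 := h1.contDiffAt
    rw [← contDiffWithinAt_univ] at h2
    exact analyticWithinAt_univ.1 (contDiffWithinAt_omega_iff_analyticWithinAt.1 h2)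
  have hsrc : ∀ z₀, ∀ᶠ z in 𝓝 z₀, f z ∈ (chartAt ℂ (f z₀)).source := fun z₀ ↦
    hf1.continuous.continuousAt
      ((chartAt ℂ (f z₀)).open_source.mem_nhds (mem_chart_source ℂ (f z₀)))
  have hD1 : ∀ z₀, ∀ᶠ z in 𝓝 z₀, D z = deriv (fun w ↦ chartAt ℂ (f z₀) (f w)) z := by
    intro z₀
    filter_upwards [hsrc z₀] with z hz
    have hz2 : chartAt ℂ (f z₀) (f z) ∈
        ((chartAt ℂ (f z₀)).symm.trans (chartAt ℂ (f z))).source := by
      rw [OpenPartialHomeomorph.trans_source]
      refine ⟨(chartAt ℂ (f z₀)).map_source hz, ?_⟩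
      rw [Set.mem_preimage, (chartAt ℂ (f z₀)).left_inv hz]
      exact mem_chart_source ℂ (f z)
    have hcc := coord_change (proj t) (proj_isLocalHomeomorph t) (proj_surjective t)
      (chart_mem_atlas ℂ (f z₀)) (chart_mem_atlas ℂ (f z)) hz2
    have hcont : Tendsto (fun w ↦ chartAt ℂ (f z₀) (f w)) (𝓝 z) (𝓝 (chartAt ℂ (f z₀) (f z))) :=
      ContinuousAt.comp ((chartAt ℂ (f z₀)).continuousAt hz) hf1.continuous.continuousAt
    have h2 : (fun w ↦ chartAt ℂ (f z) (f w)) =ᶠ[𝓝 z] fun w ↦ chartAt ℂ (f z₀) (f w) +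
        (chartAt ℂ (f z) ((chartAt ℂ (f z₀)).symm (chartAt ℂ (f z₀) (f z))) -
          chartAt ℂ (f z₀) (f z)) := by
      have hnear : ∀ᶠ w in 𝓝 z, f w ∈ (chartAt ℂ (f z₀)).source :=
        hf1.continuous.continuousAt ((chartAt ℂ (f z₀)).open_source.mem_nhds hz)
      filter_upwards [hcont.eventually hcc, hnear] with w hw hw2
      rw [(chartAt ℂ (f z₀)).left_inv hw2] at hw
      exact hw
    rw [hD]
    change deriv (fun w ↦ chartAt ℂ (f z) (f w)) z = _
    rw [h2.deriv_eq, deriv_add_const]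
  have hDdiff : Differentiable ℂ D := by
    intro z₀
    have h1 : D =ᶠ[𝓝 z₀] deriv (fun w ↦ chartAt ℂ (f z₀) (f w)) := hD1 z₀
    exact ((hg z₀).deriv.differentiableAt).congr_of_eventuallyEq h1
  have hDper : ∀ z z' : ℂ, proj s z = proj s z' → D z = D z' := by
    intro z z' h
    have hl : proj s (z' - z) = 0 := by rw [map_sub, h, sub_self]
    have hff : ∀ w, f (w + (z' - z)) = f w := by
      intro w; rw [hf]; change q (proj s (w + (z' - z))) = q (proj s w)
      rw [map_add, hl, add_zero]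
    have hfz : f z' = f z := by
      have := hff z
      rwa [add_sub_cancel] at this
    rw [hD]
    change deriv (fun w ↦ chartAt ℂ (f z) (f w)) z = deriv (fun w ↦ chartAt ℂ (f z') (f w)) z'
    rw [hfz]
    have h3 : (fun w ↦ chartAt ℂ (f z) (f w)) =
        fun w ↦ (fun w ↦ chartAt ℂ (f z) (f w)) (w + (z' - z)) := by
      funext w
      change chartAt ℂ (f z) (f w) = chartAt ℂ (f z) (f (w + (z' - z)))
      rw [hff]
    have h4 := deriv_comp_add_const (fun w ↦ chartAt ℂ (f z) (f w)) (z' - z) z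
    rw [← h3, add_sub_cancel] at h4
    exact h4
  have hbdd : Bornology.IsBounded (Set.range D) := by
    have hqm : Topology.IsQuotientMap (proj s) := (proj_isLocalHomeomorph s).isOpenMap.isQuotientMap
      (proj_isLocalHomeomorph s).continuous (proj_surjective s)
    let D' : Ell s → ℂ := fun x ↦ D (Function.surjInv (proj_surjective s) x)
    have hD' : D' ∘ proj s = D := by
      funext z
      exact hDper _ _ (Function.surjInv_eq (proj_surjective s) (proj s z))
    have hcont : Continuous D' := by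
      rw [hqm.continuous_iff, hD']
      exact hDdiff.continuous
    refine (isCompact_range hcont).isBounded.subset ?_
    rintro _ ⟨z, rfl⟩
    exact ⟨proj s z, congrFun hD' z⟩
  obtain ⟨α, hα⟩ : ∃ α, ∀ z, D z = α := ⟨D 0, fun z ↦ hDdiff.apply_eq_apply_of_bounded hbdd z 0⟩
  refine ⟨α, ?_⟩
  -- the difference is locally constant
  have hloc : IsLocallyConstant (fun z ↦ f z - proj t (α * z)) := by
    rw [IsLocallyConstant.iff_eventually_eq]
    intro z₀
    have h1 : ∀ᶠ z in 𝓝 z₀, DifferentiableAt ℂ (fun w ↦ chartAt ℂ (f z₀) (f w)) z :=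
      (hg z₀).eventually_analyticAt.mono fun z hz ↦ hz.differentiableAt
    obtain ⟨r, hr, hball⟩ := Metric.eventually_nhds_iff_ball.1 ((hD1 z₀).and (h1.and (hsrc z₀)))
    have h2 : ∀ z ∈ Metric.ball z₀ r, chartAt ℂ (f z₀) (f z) - α * z =
        chartAt ℂ (f z₀) (f z₀) - α * z₀ := by
      intro z hz
      refine Metric.isOpen_ball.is_const_of_deriv_eq_zero (𝕜 := ℂ) (f := fun z ↦ chartAt ℂ (f z₀) (f z) - α * z)
        (convex_ball z₀ r).isPreconnected ?_ ?_ hz (Metric.mem_ball_self hr)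
      · intro w hw
        exact ((hball w hw).2.1.sub (by fun_prop)).differentiableWithinAt
      · intro w hw
        have h3 := (hball w hw).1
        rw [hα] at h3
        have h4 : HasDerivAt (fun w ↦ chartAt ℂ (f z₀) (f w)) α w := by
          have := (hball w hw).2.1.hasDerivAt
          rwa [← h3] at this
        have h5 : HasDerivAt (fun z ↦ chartAt ℂ (f z₀) (f z) - α * z) (α - α * 1) w :=
          h4.sub ((hasDerivAt_id w).const_mul α)
        rw [h5.deriv]; simp
    filter_upwards [Metric.ball_mem_nhds z₀ hr] with z hz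
    have h6 : ∀ w ∈ Metric.ball z₀ r, f w - proj t (α * w) =
        proj t (chartAt ℂ (f z₀) (f w) - α * w) := by
      intro w hw
      rw [map_sub, proj_chartAt t (f z₀) (hball w hw).2.2]
    rw [h6 z hz, h6 z₀ (Metric.mem_ball_self hr), h2 z hz]
  intro z
  have h7 := hloc.apply_eq_of_isPreconnected isPreconnected_univ (Set.mem_univ z) (Set.mem_univ 0)
  have h8 : f z - proj t (α * z) = f 0 - proj t (α * 0) := h7
  rw [mul_zero, map_zero, sub_zero] at h8
  have h9 : f z = proj t (α * z) + f 0 := by rw [← h8]; abel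
  rw [hf] at h9
  have h10 : q (proj s z) = proj t (α * z) + q (proj s 0) := h9
  rw [map_zero] at h10
  exact h10

instance : Fact ((1 : ℝ) ≠ 0) := ⟨one_ne_zero⟩
instance : Fact (√2 ≠ 0) := ⟨by positivity⟩

instance : Nontrivial (Ell t) := by
  refine ⟨0, proj t (1 / 2), ?_⟩
  intro h
  obtain ⟨⟨m, hm⟩, -⟩ := (proj_eq_zero_iff t _).1 h.symm
  have h1 : (1 / 2 : ℂ).re = 1 / 2 := by norm_num
  rw [h1] at hm
  have h2 : (1 : ℝ) = ((2 * m : ℤ) : ℝ) := by push_cast; linarith
  have h3 : (1 : ℤ) = 2 * m := by exact_mod_cast h2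
  omega

/-- There is no surjective holomorphic map from `ℂ/ℤ[i]` to `ℂ/(ℤ + ℤ √2 i)`. -/
theorem no_surjective (q : Ell 1 → Ell (√2)) (hq : ContMDiff 𝓘(ℂ, ℂ) 𝓘(ℂ, ℂ) ω q) :
    ¬ Function.Surjective q := by
  intro hsur
  obtain ⟨α, hα⟩ := affine_of_holomorphic 1 (√2) q hq
  have h0 : ∀ l : ℂ, proj 1 l = 0 → proj (√2) (α * l) = 0 := by
    intro l hl
    have h1 := hα l
    rw [hl] at h1
    have h2 : proj (√2) (α * l) + q 0 = 0 + q 0 := by rw [← h1, zero_add]
    exact add_right_cancel h2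
  have h1 := h0 1 ((proj_eq_zero_iff 1 1).2 ⟨⟨1, by simp⟩, ⟨0, by simp⟩⟩)
  have hI := h0 Complex.I ((proj_eq_zero_iff 1 _).2 ⟨⟨0, by simp⟩, ⟨1, by simp⟩⟩)
  rw [proj_eq_zero_iff] at h1 hI
  obtain ⟨⟨m, hm⟩, ⟨n, hn⟩⟩ := h1
  obtain ⟨⟨m', hm'⟩, ⟨n', hn'⟩⟩ := hI
  have h2pos : (√2 : ℝ) ≠ 0 := by positivity
  simp only [mul_one, Complex.mul_re, Complex.mul_im, Complex.I_re, Complex.I_im, mul_zero,
    zero_sub, add_zero] at hm hn hm' hn'
  -- `α.re = m`, `α.im = n √2`, `-α.im = m'`, `α.re = n' √2`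
  have hirr : Irrational (√2) := irrational_sqrt_two
  have e1 : α.im = n * √2 := by rw [← hn]; field_simp
  have e2 : α.re = n' * √2 := by rw [← hn']; field_simp
  have hn0 : n = 0 := by
    by_contra hne
    have h3 : Irrational (n * √2) := hirr.intCast_mul hne
    refine h3 ⟨(-m' : ℤ), ?_⟩
    rw [← e1]
    push_cast
    linarith
  have hn0' : n' = 0 := by
    by_contra hne
    have h3 : Irrational (n' * √2) := hirr.intCast_mul hne
    refine h3 ⟨(m : ℤ), ?_⟩
    rw [← e2]
    push_cast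
    linarith
  have hα0 : α = 0 := by
    apply Complex.ext
    · rw [e2, hn0']; simp
    · rw [e1, hn0]; simp
  obtain ⟨y, y', hy⟩ := exists_pair_ne (Ell (√2))
  obtain ⟨x, rfl⟩ := hsur y
  obtain ⟨x', rfl⟩ := hsur y'
  obtain ⟨z, rfl⟩ := proj_surjective 1 x
  obtain ⟨z', rfl⟩ := proj_surjective 1 x'
  apply hy
  rw [hα, hα, hα0, zero_mul, zero_mul]

end Ell

end Pool.Agent.Lib.MP_69200a_ag
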